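import Pool.Agent.helper39.CTL.CmpH
import Pool.Agent.helper39.MESH.Imm
import Pool.Agent.helper39.MESH.Err

/-!
# The language which is hard on average for automata with controllers
-/

set_option autoImplicit false

namespace Pool.Agent.helper39.CTL

open Pool.Agent.helper12.SP (TM DSPACE Ctx Pb Cmp CmpP num pw dg pm up np capN capn num_bounds
  num_inj num_surj DSPACE_mono dspace_of_cmp exists_hard pw_eq two_pow_le_capN)
open Pool.Agent.helper39.MESH (Aut tm lst be pb_wk1 lst_prop lst_min lst_le capN_eq dspace_capN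
  exists_fool log_num_eq)

theorem hard_eq {c n r : ℕ} (hr : r < 2 ^ n) : hard c (2 ^ n + r) =
    dg (capn c n) 2 (lst (good (capn c n) c n) (pw (capn c n) 2 (pw (capn c n) 2 n))) r := by
  obtain ⟨h1, h2, h3⟩ := capN_eq c n r hr
  unfold hard
  rw [h1, h2, h3]

theorem hard_le (c X : ℕ) : hard c X ≤ 1 := by
  unfold hard dg
  omega

theorem hard_spec (c : ℕ) (hc : 1 ≤ c) (e : ℕ) : ∃ n₀, ∀ n ≥ n₀,
    ∀ Z < 2 ^ (2 ^ n + 1 - 2 * n),
      ((Finset.range (2 ^ n)).filter fun r => sg 1 (capn c n) c n e Z r +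
        hard c (2 ^ n + r) = 1).card < 2 ^ n ∧
      (2 * ((Finset.range (2 ^ n)).filter fun r => sg 1 (capn c n) c n e Z r +
        hard c (2 ^ n + r) = 1).card - 2 ^ n) ^ 2 ≤ 2 * 2 ^ n * (Nat.log 2 Z + 2 * n) := by
  refine ⟨max 12 (e + 1), fun n hn Z hZ => ?_⟩
  have hn12 : 12 ≤ n := (le_max_left _ _).trans hn
  have hen : e < n := (le_max_right _ _).trans hn
  set N := capn c n with hN
  have hcap : 2 ^ 2 ^ n ≤ N := by
    refine Pool.Agent.helper12.SP.two_pow_le_capn ?_
    have h1 : 2 ^ n ≤ 2 ^ (c * n) :=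
      Nat.pow_le_pow_right (by norm_num) (Nat.le_mul_of_pos_left n hc)
    exact h1.trans (Nat.le_mul_of_pos_left _ (by positivity))
  have hnn : n < 2 ^ n := Nat.lt_two_pow_self
  have hnN : 2 ^ n ≤ N := (Nat.lt_two_pow_self (n := 2 ^ n)).le.trans hcap
  have hpwn : pw N 2 n = 2 ^ n := pw_eq hnN
  have hpwm : pw N 2 (pw N 2 n) = 2 ^ 2 ^ n := by
    rw [hpwn]
    exact pw_eq hcap
  have hpwZ : pw N 2 (pw N 2 n + 1 - 2 * n) = 2 ^ (2 ^ n + 1 - 2 * n) := by
    rw [hpwn]
    exact pw_eq ((Nat.pow_le_pow_right (by norm_num) (by omega)).trans hcap)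
  have hdg : ∀ x r, r < 2 ^ n → dg N 2 x r = x / 2 ^ r % 2 := by
    intro x r hr
    unfold dg
    rw [pw_eq ((Nat.pow_le_pow_right (by norm_num) hr.le).trans hcap)]
  have hag : ∀ e' Z' x, ag N c n e' Z' x = ∑ r ∈ Finset.range (2 ^ n),
      if sg 1 N c n e' Z' r + x / 2 ^ r % 2 = 1 then 1 else 0 := by
    intro e' Z' x
    unfold ag
    rw [hpwn]
    refine Finset.sum_congr rfl fun r hr => ?_
    rw [hdg x r (Finset.mem_range.1 hr)]
  obtain ⟨x, hx, hxg⟩ := exists_hard n hn12 (fun e' _ Z' r => sg 1 N c n e' Z' r)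
    (fun _ _ _ _ => sg_zero_or_one _ _ _ _ _ _ _)
  have hgood : good N c n x := by
    intro e' he' Z' hZ'
    rw [hpwZ] at hZ'
    rw [hag, hpwn]
    exact hxg e' he' 0 (by omega) Z' hZ'
  set Λ := lst (good N c n) (pw N 2 (pw N 2 n)) with hΛ
  have hΛx : Λ ≤ x := by
    by_contra hcon
    exact lst_min _ _ x (not_le.1 hcon) hgood
  have hg2 : good N c n Λ := lst_prop _ _ (lt_of_le_of_lt hΛx (hpwm ▸ hx))
  have h1 := hg2 e hen Z (by rw [hpwZ]; exact hZ)
  rw [hag, hpwn] at h1
  have h2 : ∑ r ∈ Finset.range (2 ^ n), (if sg 1 N c n e Z r + Λ / 2 ^ r % 2 = 1 then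
      1 else 0) = ((Finset.range (2 ^ n)).filter fun r => sg 1 N c n e Z r +
        hard c (2 ^ n + r) = 1).card := by
    rw [Finset.card_filter]
    refine Finset.sum_congr rfl fun r hr => ?_
    have hr' := Finset.mem_range.1 hr
    rw [hard_eq hr', ← hN, ← hΛ, hdg _ r hr']
  rw [h2] at h1
  exact h1

/-- the inputs of length `n` on which `A` with the controller `R` and advice `α` gives in the simulated time
the right answer -/
def rightT {d : ℕ} [NeZero d] (A : Aut d) (R : Option Ctl) (L : Set (List Bool)) (c n : ℕ)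
    (α : List Bool) : Set (List Bool) :=
  {w | w.length = n ∧ ∃ b : Bool, Ans A R c w α (· ≤ tm c d n) b ∧ (b = true ↔ w ∈ L)}

theorem avgT (c : ℕ) (hc : 1 ≤ c) :
    ∃ L : Set (List Bool), (∃ C : ℕ, L ∈ DSPACE (fun n => C * 2 ^ (c * n))) ∧
      ∀ (d : ℕ) [NeZero d] (A : Aut d) (R : Option Ctl), ∃ n₀ : ℕ, ∀ n ≥ n₀, ∀ α : List Bool,
        (α.length + 2 * n ≤ 2 ^ n → (rightT A R L c n α).ncard < 2 ^ n) ∧
        (2 * (rightT A R L c n α).ncard - 2 ^ n) ^ 2 ≤ 2 * 2 ^ n * (α.length + 2 * n) := by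
  refine ⟨{w | hard c (num w) ≠ 0}, dspace_capN hc (cmp_hard c hc), ?_⟩
  intro d hd0 A R
  have hd : 1 ≤ d := Nat.one_le_iff_ne_zero.2 (NeZero.ne d)
  obtain ⟨n₁, h₁⟩ := simT c hc A R
  obtain ⟨e, -, he⟩ := h₁ 0
  obtain ⟨n₂, h₂⟩ := hard_spec c hc e
  refine ⟨max (max n₁ n₂) (max 12 (16 ^ d)), fun n hn α => ?_⟩
  have hn1 : n₁ ≤ n := (le_max_left _ _).trans ((le_max_left _ _).trans hn)
  have hn2 : n₂ ≤ n := (le_max_right _ _).trans ((le_max_left _ _).trans hn)
  have hn12 : 12 ≤ n := (le_max_left _ _).trans ((le_max_right _ _).trans hn)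
  have hn16 : 16 ^ d ≤ n := (le_max_right _ _).trans ((le_max_right _ _).trans hn)
  have hnn : n < 2 ^ n := Nat.lt_two_pow_self
  have hlen : Nat.log 2 (num α) = α.length := by
    have h1 := num_bounds α
    have h2 : 0 < 2 ^ α.length := by positivity
    rw [Nat.log_eq_iff (Or.inr ⟨by norm_num, by omega⟩)]
    exact h1
  have hrn : (rightT A R {w | hard c (num w) ≠ 0} c n α).ncard ≤ 2 ^ n := by
    have h1 : rightT A R {w | hard c (num w) ≠ 0} c n α ⊆ {w | w.length = n} := fun w hw => hw.1
    have h2 : ({w : List Bool | w.length = n}).ncard ≤ (Finset.range (2 ^ n)).card := by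
      rw [← Set.ncard_coe_finset]
      refine Set.ncard_le_ncard_of_injOn (fun w => num w - 2 ^ n) ?_ ?_ (Set.toFinite _)
      · intro w hw
        have hw' : w.length = n := hw
        have h1 := num_bounds w
        rw [hw', pow_succ] at h1
        simp only [Finset.coe_range, Set.mem_Iio]
        omega
      · intro w hw w' hw' heq
        have e1 : w.length = n := hw
        have e2 : w'.length = n := hw'
        have h1 := num_bounds w
        have h2 := num_bounds w'
        rw [e1] at h1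
        rw [e2] at h2
        have h3 : num w - 2 ^ n = num w' - 2 ^ n := heq
        exact num_inj w w' (by omega)
    rw [Finset.card_range] at h2
    exact (Set.ncard_le_ncard h1 (List.finite_length_eq Bool n)).trans h2
  by_cases hα : α.length + 2 * n ≤ 2 ^ n
  · have hle : (rightT A R {w | hard c (num w) ≠ 0} c n α).ncard ≤
        ((Finset.range (2 ^ n)).filter fun r => sg 1 (capn c n) c n e (num α) r +
          hard c (2 ^ n + r) = 1).card := by
      rw [← Set.ncard_coe_finset]
      refine Set.ncard_le_ncard_of_injOn (fun w => num w - 2 ^ n) ?_ ?_ (Set.toFinite _)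
      · rintro w ⟨hw, b, hA, hb⟩
        have hwb := num_bounds w
        rw [hw, pow_succ] at hwb
        have hwn : 2 ^ n + (num w - 2 ^ n) = num w := by omega
        simp only [Finset.coe_filter, Finset.mem_range, Set.mem_ofPred_eq]
        refine ⟨by omega, ?_⟩
        rw [hwn]
        obtain ⟨hsim, -⟩ := he n hn1 w α hw (by omega)
        have hb01 := hard_le c (num w)
        change b = true ↔ hard c (num w) ≠ 0 at hb
        rcases sg_zero_or_one 1 (capn c n) c n e (num α) (num w - 2 ^ n) with h0 | h0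
        · cases b with
          | true =>
            have h1 : hard c (num w) ≠ 0 := hb.1 rfl
            omega
          | false =>
            have h2 := hsim.2 hA
            omega
        · cases b with
          | true =>
            exact absurd (hA.unique (hsim.1 h0)) (by simp)
          | false =>
            have h1 : hard c (num w) = 0 := by
              by_contra hcon
              exact absurd (hb.2 hcon) (by simp)
            omega
      · intro w hw w' hw' heq
        obtain ⟨hw1, -⟩ := hw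
        obtain ⟨hw2, -⟩ := hw'
        have h1 := num_bounds w
        have h2 := num_bounds w'
        rw [hw1] at h1
        rw [hw2] at h2
        have h3 : num w - 2 ^ n = num w' - 2 ^ n := heq
        exact num_inj w w' (by omega)
    have hZ : num α < 2 ^ (2 ^ n + 1 - 2 * n) := by
      refine (num_bounds α).2.trans_le (Nat.pow_le_pow_right (by norm_num) ?_)
      omega
    obtain ⟨h1, h2⟩ := h₂ n hn2 (num α) hZ
    rw [hlen] at h2
    exact ⟨fun _ => lt_of_le_of_lt hle h1,
      (Nat.pow_le_pow_left (Nat.sub_le_sub_right (Nat.mul_le_mul_left _ hle) _) 2).trans h2⟩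
  · refine ⟨fun h => absurd h hα, ?_⟩
    have h2 : 2 * (rightT A R {w | hard c (num w) ≠ 0} c n α).ncard - 2 ^ n ≤ 2 ^ n := by omega
    calc _ ≤ (2 ^ n) ^ 2 := Nat.pow_le_pow_left h2 2
      _ ≤ 2 * 2 ^ n * (α.length + 2 * n) := by nlinarith

end Pool.Agent.helper39.CTL
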