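import Pool.Agent.helper39.CTL.Gen

/-!
# The language which is hard on average is computable within polynomial bounds
-/

set_option autoImplicit false

namespace Pool.Agent.helper39.CTL

open Pool.Agent.helper12.SP (TM DSPACE Ctx Pb Cmp CmpP num pw dg pm up np capN capn num_bounds
  num_inj DSPACE_mono dspace_of_cmp exists_hard pw_eq two_pow_le_capN)
open Pool.Agent.helper12
open Pool.Agent.helper39.MESH (lst be pb_wk1 cmp_X cmp_capN cmp_rest lst_prop lst_min lst_le)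

variable {α : Type} [Ctx α] {bd : α → ℕ}

theorem Cmp.ag (c : ℕ) (hc : 1 ≤ c) {Y e Z Λ : α → ℕ} (hY : Cmp bd Y)
    (hb : Pb bd (fun a => capN c (Y a))) (hN : Cmp bd (fun a => capN c (Y a))) (he : Cmp bd e)
    (hZ : Cmp bd Z) (hΛ : Cmp bd Λ) :
    Cmp bd (fun a => CTL.ag (capN c (Y a)) c (Nat.log 2 (Y a)) (e a) (Z a) (Λ a)) := by
  unfold CTL.ag
  refine SP.Cmp.sum (f := fun a => pw (capN c (Y a)) 2 (Nat.log 2 (Y a))) (h := fun x : α × ℕ =>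
    if CTL.sg 1 (capN c (Y x.1)) c (Nat.log 2 (Y x.1)) (e x.1) (Z x.1) x.2 +
      dg (capN c (Y x.1)) 2 (Λ x.1) x.2 = 1 then 1 else 0)
    (SP.Cmp.pw hN (SP.Cmp.const 2) (SP.Cmp.log hY)) ?_
  exact SP.Cmp.ite (SP.CmpP.eq (SP.Cmp.add (Cmp.sg 1 c hc hY.wk1 (pb_wk1 hb) he.wk1 hZ.wk1
    (SP.Cmp.i bd)) (SP.Cmp.dg hN.wk1 (SP.Cmp.const 2) hΛ.wk1 (SP.Cmp.i bd))) (SP.Cmp.const 1))
    (SP.Cmp.const 1) (SP.Cmp.const 0)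

theorem CmpP.good (c : ℕ) (hc : 1 ≤ c) {Y Λ : α → ℕ} (hY : Cmp bd Y)
    (hb : Pb bd (fun a => capN c (Y a))) (hN : Cmp bd (fun a => capN c (Y a)))
    (hΛ : Cmp bd Λ) :
    CmpP bd (fun a => CTL.good (capN c (Y a)) c (Nat.log 2 (Y a)) (Λ a)) := by
  have he2 : Cmp (fun z : (α × ℕ) × ℕ => bd z.1.1 + z.1.2 + z.2) (fun z => z.1.2) :=
    (SP.Cmp.i bd).wk1
  have hZ2 : Cmp (fun z : (α × ℕ) × ℕ => bd z.1.1 + z.1.2 + z.2) (fun z => z.2) :=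
    SP.Cmp.i (fun x : α × ℕ => bd x.1 + x.2)
  have hag := Cmp.ag c hc hY.wk1.wk1 (pb_wk1 (pb_wk1 hb)) hN.wk1.wk1 he2 hZ2 hΛ.wk1.wk1
  have hn2 : Cmp (fun z : (α × ℕ) × ℕ => bd z.1.1 + z.1.2 + z.2)
      (fun z => Nat.log 2 (Y z.1.1)) := (SP.Cmp.log hY).wk1.wk1
  have hpw : Cmp (fun z : (α × ℕ) × ℕ => bd z.1.1 + z.1.2 + z.2)
      (fun z => pw (capN c (Y z.1.1)) 2 (Nat.log 2 (Y z.1.1))) :=
    SP.Cmp.pw hN.wk1.wk1 (SP.Cmp.const 2) hn2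
  have hn1 : Cmp (fun y : α × ℕ => bd y.1 + y.2) (fun y => Nat.log 2 (Y y.1)) :=
    (SP.Cmp.log hY).wk1
  refine SP.CmpP.ball (f := fun a => Nat.log 2 (Y a)) (P := fun y : α × ℕ =>
    ∀ Z < pw (capN c (Y y.1)) 2 (pw (capN c (Y y.1)) 2 (Nat.log 2 (Y y.1)) + 1 -
      2 * Nat.log 2 (Y y.1)),
      CTL.ag (capN c (Y y.1)) c (Nat.log 2 (Y y.1)) y.2 Z (Λ y.1) <
        pw (capN c (Y y.1)) 2 (Nat.log 2 (Y y.1)) ∧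
      (2 * CTL.ag (capN c (Y y.1)) c (Nat.log 2 (Y y.1)) y.2 Z (Λ y.1) -
        pw (capN c (Y y.1)) 2 (Nat.log 2 (Y y.1))) ^ 2 ≤
        2 * pw (capN c (Y y.1)) 2 (Nat.log 2 (Y y.1)) *
          (Nat.log 2 Z + 2 * Nat.log 2 (Y y.1))) (SP.Cmp.log hY) ?_
  refine SP.CmpP.ball (f := fun y : α × ℕ => pw (capN c (Y y.1)) 2
      (pw (capN c (Y y.1)) 2 (Nat.log 2 (Y y.1)) + 1 - 2 * Nat.log 2 (Y y.1)))
    (P := fun z : (α × ℕ) × ℕ =>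
      CTL.ag (capN c (Y z.1.1)) c (Nat.log 2 (Y z.1.1)) z.1.2 z.2 (Λ z.1.1) <
        pw (capN c (Y z.1.1)) 2 (Nat.log 2 (Y z.1.1)) ∧
      (2 * CTL.ag (capN c (Y z.1.1)) c (Nat.log 2 (Y z.1.1)) z.1.2 z.2 (Λ z.1.1) -
        pw (capN c (Y z.1.1)) 2 (Nat.log 2 (Y z.1.1))) ^ 2 ≤
        2 * pw (capN c (Y z.1.1)) 2 (Nat.log 2 (Y z.1.1)) *
          (Nat.log 2 z.2 + 2 * Nat.log 2 (Y z.1.1)))
    (SP.Cmp.pw hN.wk1 (SP.Cmp.const 2) (SP.Cmp.sub (SP.Cmp.add (SP.Cmp.pw hN.wk1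
      (SP.Cmp.const 2) hn1) (SP.Cmp.const 1)) (SP.Cmp.mul (SP.Cmp.const 2) hn1))) ?_
  exact SP.CmpP.and (SP.CmpP.lt hag hpw)
    (SP.CmpP.le (SP.Cmp.pow_const (SP.Cmp.sub (SP.Cmp.mul (SP.Cmp.const 2) hag) hpw) 2)
      (SP.Cmp.mul (SP.Cmp.mul (SP.Cmp.const 2) hpw)
        (SP.Cmp.add (SP.Cmp.log hZ2) (SP.Cmp.mul (SP.Cmp.const 2) hn2))))

theorem cmp_hard (c : ℕ) (hc : 1 ≤ c) : Cmp (capN c) (hard c) := by
  have hX := cmp_X c hc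
  have hN := cmp_capN c hc
  have hpw : Cmp (capN c) (fun X : ℕ => pw (capN c X) 2 (pw (capN c X) 2 (Nat.log 2 X))) :=
    SP.Cmp.pw hN (SP.Cmp.const 2) (SP.Cmp.pw hN (SP.Cmp.const 2) (SP.Cmp.log hX))
  have hg : CmpP (fun x : ℕ × ℕ => capN c x.1 + x.2)
      (fun x : ℕ × ℕ => CTL.good (capN c x.1) c (Nat.log 2 x.1) x.2) :=
    CmpP.good c hc (Y := fun x : ℕ × ℕ => x.1) hX.wk1 (pb_wk1 Pb.self) hN.wk1 (SP.Cmp.i _)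
  exact SP.Cmp.dg hN (SP.Cmp.const 2)
    (MESH.Cmp.lst (P := fun X => CTL.good (capN c X) c (Nat.log 2 X)) hpw hg) (cmp_rest c hc)

end Pool.Agent.helper39.CTL
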