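import Pool.Agent.helper39.CTL.Gen

/-!
# The immune language is computable within polynomial bounds
-/

set_option autoImplicit false

namespace Pool.Agent.helper39.CTL

open Pool.Agent.helper12.SP (TM DSPACE Ctx Pb Cmp CmpP num pw dg pm up np capN capn num_bounds
  num_inj DSPACE_mono dspace_of_cmp exists_hard pw_eq two_pow_le_capN)
open Pool.Agent.helper12
open Pool.Agent.helper39.MESH (lst be pb_wk1 cmp_X cmp_capN cmp_rest lst_prop lst_min lst_le)

namespace CI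

open Pool.Agent.helper12.SP
open Pool.Agent.helper39.MESH.CI (capN_mono capN' rest)

section

variable {α : Type} [Ctx α] {bd : α → ℕ}

theorem eg (c : ℕ) (hc : 1 ≤ c) {Y e Z r : α → ℕ} (hY : Cmp bd Y)
    (hb : Pb bd (fun a => capN c (Y a))) (he : Cmp bd e) (hZ : Cmp bd Z) (hr : Cmp bd r) :
    Cmp bd (fun a => CTL.eg (capN c (Y a)) c (Nat.log 2 (Y a)) (e a) (Z a) (r a)) :=
  Cmp.ite (CmpP.eq (CTL.Cmp.sg 1 c hc hY hb he hZ hr) (Cmp.const 1)) (Cmp.const 1)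
    (Cmp.ite (CmpP.eq (CTL.Cmp.sg 2 c hc hY hb he hZ hr) (Cmp.const 1)) (Cmp.const 2)
      (Cmp.const 0))

theorem egY (c : ℕ) (hc : 1 ≤ c) {Y e : α → ℕ} (hY : Cmp bd Y)
    (hb : Pb bd (fun a => capN c (Y a))) (he : Cmp bd e) :
    Cmp bd (fun a => CTL.egY c (Y a) (e a)) :=
  CI.eg c hc hY hb he (Cmp.const 1) (rest hY)

theorem le1 (c : ℕ) (hc : 1 ≤ c) {Y m : α → ℕ} (hY : Cmp bd Y)
    (hb : Pb bd (fun a => capN c (Y a))) (hm : Cmp bd m) :
    Cmp bd (fun a => CTL.le1 c (Y a) (m a)) := by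
  unfold CTL.le1
  refine MESH.Cmp.lst (P := fun a e => dg (capN c (Y a)) 2 (m a) e = 0 ∧
    CTL.egY c (Y a) e ≠ 0) (Cmp.log hY) ?_
  exact CmpP.and (CmpP.eq (Cmp.dg (capN' c hY hb).wk1 (Cmp.const 2) hm.wk1 (Cmp.i bd))
    (Cmp.const 0)) (CmpP.not (CmpP.eq (CI.egY c hc hY.wk1 (pb_wk1 hb) (Cmp.i bd))
      (Cmp.const 0)))

theorem um (c : ℕ) (hc : 1 ≤ c) {Y m : α → ℕ} (hY : Cmp bd Y)
    (hb : Pb bd (fun a => capN c (Y a))) (hm : Cmp bd m) :
    Cmp bd (fun a => CTL.um c (Y a) (m a)) :=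
  Cmp.ite (CmpP.lt (CI.le1 c hc hY hb hm) (Cmp.log hY))
    (Cmp.add hm (Cmp.pw (capN' c hY hb) (Cmp.const 2) (CI.le1 c hc hY hb hm))) hm

end

theorem um_le (c Y m : ℕ) : CTL.um c Y m ≤ m + Y := by
  unfold CTL.um
  split_ifs with h
  · refine Nat.add_le_add_left ?_ _
    have hY : Y ≠ 0 := by
      rintro rfl
      simp at h
    calc pw (capN c Y) 2 (CTL.le1 c Y m) ≤ 2 ^ CTL.le1 c Y m := min_le_left _ _
      _ ≤ 2 ^ Nat.log 2 Y := Nat.pow_le_pow_right (by norm_num) h.le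
      _ ≤ Y := Nat.pow_log_le_self 2 hY
  · exact Nat.le_add_right _ _

/-- the recursion of `mk` with the input cut at `a` -/
def F (c a y : ℕ) : ℕ := Nat.rec 0 (fun Y ih => CTL.um c (min Y a) ih) y

theorem F_le (c a y : ℕ) : F c a y ≤ y * a := by
  induction y with
  | zero => exact Nat.zero_le _
  | succ y ih =>
    show CTL.um c (min y a) (F c a y) ≤ _
    refine (um_le _ _ _).trans ?_
    rw [Nat.add_mul, Nat.one_mul]
    exact Nat.add_le_add ih (min_le_right _ _)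

theorem F_eq (c a y : ℕ) (h : y ≤ a) : F c a y = CTL.mk c y := by
  induction y with
  | zero => rfl
  | succ y ih =>
    show CTL.um c (min y a) (F c a y) = CTL.um c y (CTL.mk c y)
    rw [ih (by omega), min_eq_left (by omega)]

theorem mk (c : ℕ) (hc : 1 ≤ c) : Cmp (capN c) (fun X : ℕ => CTL.mk c X) := by
  have hX := cmp_X c hc
  refine Cmp.congr (f := fun X : ℕ => F c X X) ?_ (fun X => F_eq c X X le_rfl)
  refine Cmp.recF (F c) (m := fun X : ℕ => X) (b := fun X : ℕ => X * X)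
    (h := fun x : ℕ × ℕ × ℕ => CTL.um c (min x.2.1 x.1) x.2.2) (Cmp.const 0) hX ?_
    (fun _ => rfl) (fun _ _ => rfl) (hX.pb.mul hX.pb) ?_
  · refine CI.um c hc (Cmp.min (Cmp.y _) hX.wk) ?_ (Cmp.ih _)
    refine Pb.of_le (g := fun x : ℕ × ℕ × ℕ => capN c x.1 + x.2.1 + x.2.2) (fun x => ?_) Pb.self
    have := capN_mono c (min_le_right x.2.1 x.1)
    omega
  · intro X y hy
    exact (F_le c X y).trans (Nat.mul_le_mul_right _ hy)

end CI

theorem cmp_imm (c : ℕ) (hc : 1 ≤ c) : Cmp (capN c) (imm c) := by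
  have hX := cmp_X c hc
  have hl := CI.le1 c hc hX Pool.Agent.helper12.SP.Pb.self (CI.mk c hc)
  exact Pool.Agent.helper12.SP.Cmp.ite (Pool.Agent.helper12.SP.CmpP.and
    (Pool.Agent.helper12.SP.CmpP.lt hl (Pool.Agent.helper12.SP.Cmp.log hX))
    (Pool.Agent.helper12.SP.CmpP.eq (CI.egY c hc hX Pool.Agent.helper12.SP.Pb.self hl)
      (Pool.Agent.helper12.SP.Cmp.const 1)))
    (Pool.Agent.helper12.SP.Cmp.const 1) (Pool.Agent.helper12.SP.Cmp.const 0)

end Pool.Agent.helper39.CTL
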