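import Pool.Agent.helper39.CTL.Sim
import Pool.Agent.helper39.MESH.CmpE
import Pool.Agent.helper39.MESH.CmpI

/-!
# The family `sg` is computable within polynomial bounds
-/

set_option autoImplicit false

namespace Pool.Agent.helper39.CTL

open Pool.Agent.helper12.SP (TM DSPACE Ctx Pb Cmp CmpP num pw dg pm up np capN capn)
open Pool.Agent.helper12

/-- the bound for the configurations -/
def zb (N k T m : ℕ) : ℕ := (N * (m + 1) + m) * k + T + 1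

theorem zn_le (N k T m z u : ℕ) : zn N k T m z u ≤ zb N k T m := by
  unfold zn zb
  have h1 : ∀ i, dg N k T i ≤ T := fun i => (Nat.mod_le _ _).trans (Nat.div_le_self _ _)
  have h2 := h1 (3 * u)
  have h3 : (if dg N k T (3 * u + 2) = 1 then min (zi k m z + 1) (m - 1) else zi k m z - 1) ≤ m := by
    have h4 : zi k m z < m + 1 := Nat.mod_lt _ (Nat.succ_pos m)
    split_ifs
    · exact (min_le_right _ _).trans (Nat.sub_le _ _)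
    · omega
  have h5 := Nat.mul_le_mul_right (m + 1) (min_le_left N (zt k m z - dg N k (zt k m z) (zi k m z) *
    pw N k (zi k m z) + dg N k T (3 * u + 1) * pw N k (zi k m z)))
  have h6 := Nat.mul_le_mul_right k (Nat.add_le_add h5 h3)
  omega

theorem zs_le (N k T m : ℕ) (l : ℕ → ℕ) (z : ℕ) : zs N k T m l z ≤ max z (zb N k T m) := by
  unfold zs
  split_ifs
  · exact le_max_left _ _
  · exact le_max_left _ _
  · exact Nat.zero_le _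
  · exact (zn_le _ _ _ _ _ _).trans (le_max_right _ _)

theorem zr_le (N k T m : ℕ) (l : ℕ → ℕ) (s : ℕ) : zr N k T m l s ≤ zb N k T m := by
  induction s with
  | zero =>
    show 1 ≤ zb N k T m
    unfold zb
    omega
  | succ s ih => exact (zs_le _ _ _ _ _ _).trans (max_le ih le_rfl)

section

variable {α : Type} [Ctx α] {bd N k T m z u τ : α → ℕ}

omit [Ctx α] in
theorem pb_wk {f : α → ℕ} (hf : Pb bd f) :
    Pb (fun x : α × ℕ × ℕ => bd x.1 + x.2.1 + x.2.2) (fun x : α × ℕ × ℕ => f x.1) := by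
  obtain ⟨C, hC⟩ := hf
  exact ⟨C, fun x => (hC x.1).trans (Nat.pow_le_pow_left (by simp only; omega) C)⟩

theorem Cmp.zi (hk : Cmp bd k) (hm : Cmp bd m) (hz : Cmp bd z) :
    Cmp bd (fun a => CTL.zi (k a) (m a) (z a)) :=
  SP.Cmp.mod (SP.Cmp.div hz hk) hm.succ

theorem Cmp.zt (hk : Cmp bd k) (hm : Cmp bd m) (hz : Cmp bd z) :
    Cmp bd (fun a => CTL.zt (k a) (m a) (z a)) :=
  SP.Cmp.div (SP.Cmp.div hz hk) hm.succ

theorem Cmp.six (hk : Cmp bd k) : Cmp bd (fun a => 6 * (k a * k a)) :=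
  SP.Cmp.mul (SP.Cmp.const 6) (SP.Cmp.mul hk hk)

theorem Cmp.wd (hN : Cmp bd N) (hk : Cmp bd k) (hT : Cmp bd T) (hm : Cmp bd m) (hτ : Cmp bd τ) :
    Cmp bd (fun a => CTL.wd (N a) (k a) (T a) (m a) (τ a)) := by
  unfold CTL.wd
  refine SP.Cmp.sum (f := m) (h := fun x : α × ℕ =>
    dg (N x.1) (k x.1) (T x.1) (6 * (k x.1 * k x.1) + k x.1 + dg (N x.1) (k x.1) (τ x.1) x.2) *
      pw (N x.1) 2 x.2) hm ?_
  exact SP.Cmp.mul (SP.Cmp.dg hN.wk1 hk.wk1 hT.wk1 (SP.Cmp.add (SP.Cmp.add (Cmp.six hk.wk1) hk.wk1)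
    (SP.Cmp.dg hN.wk1 hk.wk1 hτ.wk1 (SP.Cmp.i bd)))) (SP.Cmp.pw hN.wk1 (SP.Cmp.const 2) (SP.Cmp.i bd))

theorem Cmp.cu {l : α → ℕ} (hN : Cmp bd N) (hk : Cmp bd k) (hm : Cmp bd m) (hz : Cmp bd z)
    (hl : Cmp bd l) : Cmp bd (fun a => CTL.cu (N a) (k a) (m a) (z a) (l a)) :=
  SP.Cmp.add (SP.Cmp.mul (SP.Cmp.add (SP.Cmp.mul (SP.Cmp.mod hz hk) hk)
    (SP.Cmp.dg hN hk (Cmp.zt hk hm hz) (Cmp.zi hk hm hz))) (SP.Cmp.const 2))
    (SP.Cmp.sub hl (SP.Cmp.const 1))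

theorem Cmp.zn (hN : Cmp bd N) (hk : Cmp bd k) (hT : Cmp bd T) (hm : Cmp bd m) (hz : Cmp bd z)
    (hu : Cmp bd u) : Cmp bd (fun a => CTL.zn (N a) (k a) (T a) (m a) (z a) (u a)) := by
  have hi := Cmp.zi hk hm hz
  have ht := Cmp.zt hk hm hz
  have h3 := SP.Cmp.mul (SP.Cmp.const 3) hu
  have hp := SP.Cmp.pw hN hk hi
  exact SP.Cmp.add (SP.Cmp.mul (SP.Cmp.add (SP.Cmp.mul (SP.Cmp.min hN (SP.Cmp.add (SP.Cmp.sub ht
    (SP.Cmp.mul (SP.Cmp.dg hN hk ht hi) hp)) (SP.Cmp.mul (SP.Cmp.dg hN hk hT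
      (SP.Cmp.add h3 (SP.Cmp.const 1))) hp))) hm.succ)
    (SP.Cmp.ite (SP.CmpP.eq (SP.Cmp.dg hN hk hT (SP.Cmp.add h3 (SP.Cmp.const 2))) (SP.Cmp.const 1))
      (SP.Cmp.min hi.succ (SP.Cmp.sub hm (SP.Cmp.const 1))) (SP.Cmp.sub hi (SP.Cmp.const 1)))) hk)
    (SP.Cmp.dg hN hk hT h3)

theorem Cmp.zo (hN : Cmp bd N) (hk : Cmp bd k) (hT : Cmp bd T) (hz : Cmp bd z) :
    Cmp bd (fun a => CTL.zo (N a) (k a) (T a) (z a)) :=
  SP.Cmp.dg hN hk hT (SP.Cmp.add (Cmp.six hk) (SP.Cmp.mod hz hk))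

end

section

variable {α : Type} [Ctx α] {bd Y e Z r k T y z : α → ℕ}

theorem Cmp.cells (c : ℕ) (hY : Cmp bd Y) (hb : Pb bd (fun a => capN c (Y a))) :
    Cmp bd (fun a => CTL.cells c (Nat.log 2 (Y a))) := by
  have hn : Cmp bd (fun a => Nat.log 2 (Y a)) := SP.Cmp.log hY
  have hcn : Cmp bd (fun a => 2 ^ (c * Nat.log 2 (Y a))) := by
    refine SP.Cmp.two_pow (SP.Cmp.mul (SP.Cmp.const c) hn) (SP.Pb.of_le (fun a => ?_) hb)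
    exact SP.two_pow_le_capN c (Y a) _ (Nat.lt_two_pow_self.le.trans (SP.le_eight c _))
  exact SP.Cmp.div hcn (SP.Cmp.log hn).succ

theorem Cmp.lan (c : ℕ) (hc : 1 ≤ c) (hY : Cmp bd Y) (hb : Pb bd (fun a => capN c (Y a)))
    (he : Cmp bd e) (hZ : Cmp bd Z) (hr : Cmp bd r) (hy : Cmp bd y) :
    Cmp bd (fun a => CTL.lan (capN c (Y a)) c (Nat.log 2 (Y a)) (e a) (Z a) (r a) (y a)) := by
  have hN := MESH.CI.capN' c hY hb
  exact MESH.Cmp.ev' c hc hY hb he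
    (SP.Cmp.add hy (SP.Cmp.mul (SP.Cmp.pw hN (SP.Cmp.const 2) (Cmp.cells c hY hb)) hZ)) hr

theorem Cmp.zs (c : ℕ) (hc : 1 ≤ c) (hY : Cmp bd Y) (hb : Pb bd (fun a => capN c (Y a)))
    (he : Cmp bd e) (hk : Cmp bd k) (hT : Cmp bd T) (hZ : Cmp bd Z) (hr : Cmp bd r)
    (hz : Cmp bd z) :
    Cmp bd (fun a => CTL.zs (capN c (Y a)) (k a) (T a) (CTL.cells c (Nat.log 2 (Y a)))
      (CTL.lan (capN c (Y a)) c (Nat.log 2 (Y a)) (e a) (Z a) (r a)) (z a)) := by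
  have hN := MESH.CI.capN' c hY hb
  have hm := Cmp.cells c hY hb
  have hw := Cmp.wd hN hk hT hm (Cmp.zt hk hm hz)
  have hl := Cmp.lan c hc hY hb he hZ hr hw
  unfold CTL.zs
  exact SP.Cmp.ite (SP.CmpP.eq (SP.Cmp.mod hz hk) (SP.Cmp.const 0)) hz
    (SP.Cmp.ite (SP.CmpP.not (SP.CmpP.eq (SP.Cmp.dg hN hk hT (SP.Cmp.add (Cmp.six hk)
      (SP.Cmp.mod hz hk))) (SP.Cmp.const 0))) hz
      (SP.Cmp.ite (SP.CmpP.eq hl (SP.Cmp.const 0)) (SP.Cmp.const 0)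
        (Cmp.zn hN hk hT hm hz (Cmp.cu hN hk hm hz hl))))

theorem Cmp.zr (c : ℕ) (hc : 1 ≤ c) (hY : Cmp bd Y) (hb : Pb bd (fun a => capN c (Y a)))
    (he : Cmp bd e) (hk : Cmp bd k) (hT : Cmp bd T) (hZ : Cmp bd Z) (hr : Cmp bd r) :
    Cmp bd (fun a => CTL.zr (capN c (Y a)) (k a) (T a) (CTL.cells c (Nat.log 2 (Y a)))
      (CTL.lan (capN c (Y a)) c (Nat.log 2 (Y a)) (e a) (Z a) (r a)) (capN c (Y a))) := by
  have hN := MESH.CI.capN' c hY hb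
  have hm := Cmp.cells c hY hb
  unfold CTL.zr
  refine SP.Cmp.natRec (g := fun _ => 1) (m := fun a => capN c (Y a))
    (h := fun x : α × ℕ × ℕ => CTL.zs (capN c (Y x.1)) (k x.1) (T x.1)
      (CTL.cells c (Nat.log 2 (Y x.1)))
      (CTL.lan (capN c (Y x.1)) c (Nat.log 2 (Y x.1)) (e x.1) (Z x.1) (r x.1)) x.2.2)
    (SP.Cmp.const 1) hN
    (Cmp.zs c hc hY.wk (pb_wk hb) he.wk hk.wk hT.wk hZ.wk hr.wk (SP.Cmp.ih bd)) ?_
  have hbd : Pb bd (fun a => zb (capN c (Y a)) (k a) (T a) (CTL.cells c (Nat.log 2 (Y a)))) :=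
    SP.Pb.add (SP.Pb.add (SP.Pb.mul (SP.Pb.add (SP.Pb.mul hN.pb (SP.Pb.add hm.pb (SP.Pb.const 1)))
      hm.pb) hk.pb) hT.pb) (SP.Pb.const 1)
  obtain ⟨C, hC⟩ := hbd
  refine ⟨C, fun a y _ => le_trans ?_ (hC a)⟩
  exact zr_le (capN c (Y a)) (k a) (T a) (CTL.cells c (Nat.log 2 (Y a)))
    (CTL.lan (capN c (Y a)) c (Nat.log 2 (Y a)) (e a) (Z a) (r a)) y

theorem Cmp.sgk (v c : ℕ) (hc : 1 ≤ c) (hY : Cmp bd Y) (hb : Pb bd (fun a => capN c (Y a)))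
    (he : Cmp bd e) (hk : Cmp bd k) (hT : Cmp bd T) (hZ : Cmp bd Z) (hr : Cmp bd r) :
    Cmp bd (fun a => CTL.sgk v (capN c (Y a)) c (Nat.log 2 (Y a)) (e a) (k a) (T a) (Z a)
      (r a)) := by
  have hN := MESH.CI.capN' c hY hb
  have h1 := MESH.Cmp.ev' c hc hY hb he hZ hr
  have h2 := Cmp.zo hN hk hT (Cmp.zr c hc hY hb he hk hT hZ hr)
  unfold CTL.sgk
  exact SP.Cmp.ite (SP.CmpP.eq (SP.Cmp.ite (SP.CmpP.eq hk (SP.Cmp.const 0)) h1 h2)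
    (SP.Cmp.const v)) (SP.Cmp.const 1) (SP.Cmp.const 0)

theorem Cmp.sg (v c : ℕ) (hc : 1 ≤ c) (hY : Cmp bd Y) (hb : Pb bd (fun a => capN c (Y a)))
    (he : Cmp bd e) (hZ : Cmp bd Z) (hr : Cmp bd r) :
    Cmp bd (fun a => CTL.sg v (capN c (Y a)) c (Nat.log 2 (Y a)) (e a) (Z a) (r a)) :=
  Cmp.sgk v c hc hY hb (MESH.Cmp.unpair1 he) (MESH.Cmp.unpair1 (MESH.Cmp.unpair2 he))
    (MESH.Cmp.unpair2 (MESH.Cmp.unpair2 he)) hZ hr

end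

end Pool.Agent.helper39.CTL
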