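import Pool.Agent.helper39.CTL.Words
import Pool.Agent.helper39.MESH.Code

/-!
# The number-coded controllers are correct
-/

set_option autoImplicit false

namespace Pool.Agent.helper39.CTL

open Pool.Agent.helper12.SP (pw dg)
open Pool.Agent.helper39.MESH.Cod (sum_digits_lt sum_digits)

/-- reaching a stopped configuration -/
theorem reach {F : ℕ → ℕ} {Z : ℕ → ℕ} (hZ : ∀ s, Z (s + 1) = F (Z s)) {H : ℕ → Prop}
    {K : ℕ} (hK : ∀ s, Z s < K) {T : ℕ} (h1 : H (Z T)) (h2 : ∀ s < T, ¬ H (Z s)) : T ≤ K := by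
  by_contra hcon
  rw [not_le] at hcon
  have hshift : ∀ i j, Z i = Z j → ∀ x, Z (i + x) = Z (j + x) := by
    intro i j hij x
    induction x with
    | zero => exact hij
    | succ x ih => rw [← Nat.add_assoc, ← Nat.add_assoc, hZ, hZ, ih]
  obtain ⟨i, hi, j, hj, hne, heq⟩ := Finset.exists_ne_map_eq_of_card_lt_of_maps_to
    (s := Finset.range (K + 1)) (t := Finset.range K) (f := Z) (by simp)
    (fun s _ => Finset.mem_coe.2 (Finset.mem_range.2 (hK s)))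
  rw [Finset.mem_range] at hi hj
  rcases Nat.lt_or_gt_of_ne hne with h | h
  · have h3 := hshift i j heq (T - j)
    rw [Nat.add_sub_cancel' (by omega : j ≤ T)] at h3
    exact h2 (i + (T - j)) (by omega) (h3 ▸ h1)
  · have h3 := hshift j i heq.symm (T - i)
    rw [Nat.add_sub_cancel' (by omega : i ≤ T)] at h3
    exact h2 (j + (T - i)) (by omega) (h3 ▸ h1)

/-- `(k, T)` codes the controller -/
structure Codes (C : Ctl) (N k T : ℕ) (cQ : C.Q → ℕ) (cΓ : C.Γ → ℕ) : Prop where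
  q1 : ∀ q, 1 ≤ cQ q
  q2 : ∀ q, cQ q < k
  g2 : ∀ γ, cΓ γ < k
  q0 : cQ C.start = 1
  g0 : cΓ C.blank = 0
  s0 : ∀ q γ b, dg N k T (3 * ((cQ q * k + cΓ γ) * 2 + b.toNat)) = cQ (C.step q γ b).1
  s1 : ∀ q γ b, dg N k T (3 * ((cQ q * k + cΓ γ) * 2 + b.toNat) + 1) = cΓ (C.step q γ b).2.1
  s2 : ∀ q γ b, dg N k T (3 * ((cQ q * k + cΓ γ) * 2 + b.toNat) + 2) =
    (C.step q γ b).2.2.toNat
  o : ∀ q, dg N k T (6 * (k * k) + cQ q) = (C.out q).elim 0 fun b => 1 + b.toNat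
  o0 : dg N k T (6 * (k * k)) = 0
  b : ∀ γ, dg N k T (6 * (k * k) + k + cΓ γ) = (C.bit γ).toNat

section

variable {C : Ctl} {N k T : ℕ} {cQ : C.Q → ℕ} {cΓ : C.Γ → ℕ}

/-- the number of the contents of the tape -/
def tape (cΓ : C.Γ → ℕ) (k m : ℕ) (s : ℕ → C.Γ) : ℕ := ∑ j ∈ Finset.range m, cΓ (s j) * k ^ j

/-- the number of a configuration -/
def cz (cQ : C.Q → ℕ) (cΓ : C.Γ → ℕ) (k m : ℕ) (x : C.Conf) : ℕ :=
  (tape cΓ k m x.2.2 * (m + 1) + x.2.1) * k + cQ x.1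

theorem tape_update (m : ℕ) (s : ℕ → C.Γ) (i : ℕ) (hi : i < m) (γ : C.Γ) :
    tape cΓ k m (Function.update s i γ) = tape cΓ k m s - cΓ (s i) * k ^ i + cΓ γ * k ^ i := by
  unfold tape
  rw [← Finset.sum_erase_add (Finset.range m) (fun j => cΓ (s j) * k ^ j) (Finset.mem_range.2 hi),
    ← Finset.sum_erase_add (Finset.range m) (fun j => cΓ (Function.update s i γ j) * k ^ j)
      (Finset.mem_range.2 hi)]
  rw [Nat.add_sub_cancel, Function.update_self]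
  congr 1
  refine Finset.sum_congr rfl fun j hj => ?_
  rw [Function.update_of_ne (Finset.ne_of_mem_erase hj)]

variable (H : Codes C N k T cQ cΓ)

include H

theorem tape_lt (m : ℕ) (s : ℕ → C.Γ) : tape cΓ k m s < k ^ m :=
  sum_digits_lt (fun j => cΓ (s j)) (fun _ => H.g2 _) m

theorem k_pos : 1 ≤ k := by
  have := H.q2 C.start
  omega

theorem tape_dg {m : ℕ} (hN : k ^ m ≤ N) (s : ℕ → C.Γ) {i : ℕ} (hi : i < m) :
    dg N k (tape cΓ k m s) i = cΓ (s i) := by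
  unfold dg pw
  rw [min_eq_left ((Nat.pow_le_pow_right (k_pos H) hi.le).trans hN)]
  exact sum_digits (q := k) m (fun j => cΓ (s j)) (fun _ => H.g2 _) i hi

theorem cz_mod (m : ℕ) (x : C.Conf) : cz cQ cΓ k m x % k = cQ x.1 := by
  unfold cz
  rw [Nat.add_comm, Nat.add_mul_mod_self_right, Nat.mod_eq_of_lt (H.q2 _)]

theorem cz_div (m : ℕ) (x : C.Conf) :
    cz cQ cΓ k m x / k = tape cΓ k m x.2.2 * (m + 1) + x.2.1 := by
  unfold cz
  rw [Nat.add_comm, Nat.add_mul_div_right _ _ (k_pos H), Nat.div_eq_of_lt (H.q2 _), Nat.zero_add]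

theorem cz_zi {m : ℕ} {x : C.Conf} (hx : x.2.1 < m + 1) :
    zi k m (cz cQ cΓ k m x) = x.2.1 := by
  unfold zi
  rw [cz_div H, Nat.add_comm, Nat.add_mul_mod_self_right, Nat.mod_eq_of_lt hx]

theorem cz_zt {m : ℕ} {x : C.Conf} (hx : x.2.1 < m + 1) :
    zt k m (cz cQ cΓ k m x) = tape cΓ k m x.2.2 := by
  unfold zt
  rw [cz_div H, Nat.add_comm, Nat.add_mul_div_right _ _ (Nat.succ_pos m), Nat.div_eq_of_lt hx,
    Nat.zero_add]

theorem cz_lt {m : ℕ} {x : C.Conf} (hx : x.2.1 < m + 1) :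
    cz cQ cΓ k m x < k ^ m * (m + 1) * k := by
  have h1 := tape_lt H m x.2.2
  have h2 := H.q2 x.1
  unfold cz
  have h3 : tape cΓ k m x.2.2 * (m + 1) + x.2.1 < k ^ m * (m + 1) := by
    calc tape cΓ k m x.2.2 * (m + 1) + x.2.1 < tape cΓ k m x.2.2 * (m + 1) + (m + 1) := by omega
      _ = (tape cΓ k m x.2.2 + 1) * (m + 1) := by ring
      _ ≤ k ^ m * (m + 1) := Nat.mul_le_mul_right _ h1
  calc (tape cΓ k m x.2.2 * (m + 1) + x.2.1) * k + cQ x.1
      < (tape cΓ k m x.2.2 * (m + 1) + x.2.1) * k + k := by omega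
    _ = (tape cΓ k m x.2.2 * (m + 1) + x.2.1 + 1) * k := by ring
    _ ≤ k ^ m * (m + 1) * k := Nat.mul_le_mul_right _ h3

theorem cz_wd {m : ℕ} (hN : k ^ m ≤ N) (hN2 : 2 ^ m ≤ N) (s : ℕ → C.Γ) :
    wd N k T m (tape cΓ k m s) = ∑ j ∈ Finset.range m, (C.bit (s j)).toNat * 2 ^ j := by
  unfold wd
  refine Finset.sum_congr rfl fun j hj => ?_
  have hj' := Finset.mem_range.1 hj
  rw [tape_dg H hN s hj', H.b]
  unfold pw
  rw [min_eq_left ((Nat.pow_le_pow_right (by norm_num) hj'.le).trans hN2)]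

theorem cz_out {m : ℕ} (x : C.Conf) :
    zo N k T (cz cQ cΓ k m x) = (C.out x.1).elim 0 fun b => 1 + b.toNat := by
  unfold zo
  rw [cz_mod H, H.o]

theorem cz_next {m : ℕ} (hm : 1 ≤ m) (hN : k ^ m ≤ N) {x : C.Conf}
    (hx : x.2.1 < m) (b : Bool) :
    zn N k T m (cz cQ cΓ k m x) (cu N k m (cz cQ cΓ k m x) (1 + b.toNat)) =
      cz cQ cΓ k m (C.next m x b) := by
  have hx' : x.2.1 < m + 1 := by omega
  have hu : cu N k m (cz cQ cΓ k m x) (1 + b.toNat) =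
      (cQ x.1 * k + cΓ (x.2.2 x.2.1)) * 2 + b.toNat := by
    unfold cu
    rw [cz_mod H, cz_zt H hx', cz_zi H hx', tape_dg H hN _ hx, Nat.add_sub_cancel_left]
  have hpw : pw N k x.2.1 = k ^ x.2.1 :=
    min_eq_left ((Nat.pow_le_pow_right (k_pos H) hx.le).trans hN)
  rw [hu]
  unfold zn
  rw [cz_zt H hx', cz_zi H hx', tape_dg H hN _ hx, hpw, H.s0, H.s1, H.s2,
    ← tape_update (cΓ := cΓ) (k := k) m x.2.2 x.2.1 hx]
  have h1 : tape cΓ k m (Function.update x.2.2 x.2.1 (C.step x.1 (x.2.2 x.2.1) b).2.1) ≤ N :=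
    (tape_lt H m _).le.trans hN
  rw [min_eq_right h1]
  unfold cz Ctl.next
  simp only
  congr 3
  cases (C.step x.1 (x.2.2 x.2.1) b).2.2 <;> simp

end

end Pool.Agent.helper39.CTL
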