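import Pool.Agent.helper39.CTL.Gen

/-!
# The cancellation argument
-/

set_option autoImplicit false

namespace Pool.Agent.helper39.CTL

open Pool.Agent.helper12.SP (TM DSPACE Ctx Pb Cmp CmpP num pw dg pm up np capN capn num_bounds
  num_inj DSPACE_mono dspace_of_cmp exists_hard pw_eq two_pow_le_capN)
open Pool.Agent.helper12
open Pool.Agent.helper39.MESH (lst be pb_wk1 cmp_X cmp_capN cmp_rest lst_prop lst_min lst_le)

/-- setting a bit which was `0` -/
private lemma bit_add {m i : ℕ} (h : m / 2 ^ i % 2 = 0) (j : ℕ) :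
    (m + 2 ^ i) / 2 ^ j % 2 = if j = i then 1 else m / 2 ^ j % 2 := by
  rcases lt_trichotomy j i with h1 | h1 | h1
  · rw [if_neg (by omega)]
    obtain ⟨k, rfl⟩ : ∃ k, i = j + (k + 1) := ⟨i - j - 1, by omega⟩
    rw [pow_add, Nat.add_mul_div_left _ _ (by positivity), pow_succ, ← Nat.add_mod_mod,
      Nat.mul_mod_left, add_zero]
  · subst h1
    rw [if_pos rfl, Nat.add_div_right _ (by positivity)]
    omega
  · rw [if_neg (by omega)]
    obtain ⟨k, rfl⟩ : ∃ k, j = i + (1 + k) := ⟨j - i - 1, by omega⟩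
    have h2 : (m + 2 ^ i) / 2 ^ i / 2 ^ 1 = m / 2 ^ i / 2 ^ 1 := by
      rw [Nat.add_div_right _ (by positivity)]
      omega
    rw [pow_add, pow_add, ← Nat.div_div_eq_div_mul, ← Nat.div_div_eq_div_mul, h2,
      ← Nat.div_div_eq_div_mul, ← Nat.div_div_eq_div_mul]

private lemma pw_log {c Y i : ℕ} (hc : 1 ≤ c) (hi : i < Nat.log 2 Y) :
    pw (capN c Y) 2 i = 2 ^ i := by
  refine pw_eq (two_pow_le_capN c Y i ?_)
  have h1 := Pool.Agent.helper12.SP.log_lt c Y hc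
  have h2 := Pool.Agent.helper12.SP.le_eight c (2 ^ (c * Nat.log 2 Y))
  omega

private lemma mk_succ (c Y : ℕ) : mk c (Y + 1) = um c Y (mk c Y) := rfl

/-- the property of the chosen automaton -/
private lemma le1_prop {c Y m : ℕ} (hc : 1 ≤ c) (h : le1 c Y m < Nat.log 2 Y) :
    m / 2 ^ le1 c Y m % 2 = 0 ∧ egY c Y (le1 c Y m) ≠ 0 := by
  have h1 : dg (capN c Y) 2 m (le1 c Y m) = 0 ∧ egY c Y (le1 c Y m) ≠ 0 := by
    rw [le1] at h ⊢
    exact lst_prop _ _ h
  rw [dg, pw_log hc h] at h1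
  exact h1

/-- the bits after one step -/
private lemma um_bit {c Y m : ℕ} (hc : 1 ≤ c) (j : ℕ) :
    um c Y m / 2 ^ j % 2 =
      if le1 c Y m < Nat.log 2 Y ∧ j = le1 c Y m then 1 else m / 2 ^ j % 2 := by
  rw [um]
  by_cases h : le1 c Y m < Nat.log 2 Y
  · rw [if_pos h, pw_log hc h, bit_add (le1_prop hc h).1]
    simp only [h, true_and]
  · rw [if_neg h, if_neg (fun h' => h h'.1)]

private lemma bit_mono {c : ℕ} (hc : 1 ≤ c) {X X' j : ℕ} (hX : X ≤ X')
    (h : mk c X / 2 ^ j % 2 = 1) : mk c X' / 2 ^ j % 2 = 1 := by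
  induction X', hX using Nat.le_induction with
  | base => exact h
  | succ Y _ ih =>
    rw [mk_succ, um_bit hc]
    split_ifs
    · rfl
    · exact ih

theorem imm_core (c e : ℕ) (hc : 1 ≤ c)
    (h : ∀ Y, e < Nat.log 2 Y → egY c Y e ≠ 0 → egY c Y e = 1 + imm c Y) :
    {Y | e < Nat.log 2 Y ∧ egY c Y e ≠ 0}.Finite := by
  -- the automaton `e` is never cancelled
  have hne : ∀ Y, ¬ (le1 c Y (mk c Y) < Nat.log 2 Y ∧ e = le1 c Y (mk c Y)) := by
    rintro Y ⟨h1, h2⟩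
    have h3 := (le1_prop hc h1).2
    have h4 := h Y (by omega) (by rw [h2]; exact h3)
    rw [h2, imm] at h4
    by_cases h5 : egY c Y (le1 c Y (mk c Y)) = 1
    · rw [if_pos ⟨h1, h5⟩] at h4
      omega
    · rw [if_neg (fun h6 => h5 h6.2)] at h4
      exact h5 h4
  have hbit : ∀ Y, mk c Y / 2 ^ e % 2 = 0 := by
    intro Y
    induction Y with
    | zero =>
      show 0 / 2 ^ e % 2 = 0
      rw [Nat.zero_div, Nat.zero_mod]
    | succ Y ih => rw [mk_succ, um_bit hc, if_neg (hne Y), ih]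
  -- every `Y` in the set cancels a smaller automaton
  have hlt : ∀ Y, e < Nat.log 2 Y → egY c Y e ≠ 0 →
      le1 c Y (mk c Y) < e ∧ le1 c Y (mk c Y) < Nat.log 2 Y := by
    intro Y h1 h2
    have h3 : le1 c Y (mk c Y) ≤ e := by
      by_contra h4
      refine lst_min (fun e => dg (capN c Y) 2 (mk c Y) e = 0 ∧ egY c Y e ≠ 0) (Nat.log 2 Y) e
        (by rw [le1] at h4; omega) ⟨?_, h2⟩
      rw [dg, pw_log hc h1]
      exact hbit Y
    have h4 : le1 c Y (mk c Y) ≠ e := fun h5 => hne Y ⟨by omega, h5.symm⟩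
    omega
  refine Set.Finite.of_injOn (f := fun Y => le1 c Y (mk c Y)) (t := Set.Iio e) ?_ ?_
    (Set.finite_Iio e)
  · rintro Y ⟨h1, h2⟩
    exact (hlt Y h1 h2).1
  · have key : ∀ Y Y', (e < Nat.log 2 Y ∧ egY c Y e ≠ 0) → (e < Nat.log 2 Y' ∧ egY c Y' e ≠ 0) →
        le1 c Y (mk c Y) = le1 c Y' (mk c Y') → ¬ Y < Y' := by
      rintro Y Y' ⟨h1, h2⟩ ⟨h3, h4⟩ h5 h6
      have h7 := (hlt Y h1 h2).2
      have h8 := (hlt Y' h3 h4).2
      have h9 : mk c (Y + 1) / 2 ^ le1 c Y (mk c Y) % 2 = 1 := by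
        rw [mk_succ, um_bit hc, if_pos ⟨h7, rfl⟩]
      have h10 := bit_mono hc (Nat.succ_le_of_lt h6) h9
      rw [h5, (le1_prop hc h8).1] at h10
      exact absurd h10 (by norm_num)
    intro Y hY Y' hY' h5
    have h5' : le1 c Y (mk c Y) = le1 c Y' (mk c Y') := h5
    rcases lt_trichotomy Y Y' with h6 | h6 | h6
    · exact absurd h6 (key Y Y' hY hY' h5')
    · exact h6
    · exact absurd h6 (key Y' Y hY' hY h5'.symm)

end Pool.Agent.helper39.CTL
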