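import Pool.Agent.helper39.MESH.Defs

/-!
# Controllers

A controller is a deterministic machine with a bounded tape which uses answers for the words on its
tape. It is coded by two numbers, and its configurations are coded by numbers.
-/

set_option autoImplicit false

namespace Pool.Agent.helper39.CTL

open Pool.Agent.helper12.SP (TM DSPACE Ctx Pb Cmp num pw dg pm up np)

/-- A controller: a deterministic machine with one tape over a finite alphabet. At each step it is
told the answer for the word on its tape. -/
structure Ctl where
  /-- states -/
  Q : Type
  finQ : Finite Q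
  /-- symbols -/
  Γ : Type
  finΓ : Finite Γ
  start : Q
  blank : Γ
  /-- the letter of the word on the tape which is in a cell with the given symbol -/
  bit : Γ → Bool
  /-- the new state, the written symbol and the move of the head (`true`: to the right, `false`: to
  the left), from the state, the read symbol and the answer -/
  step : Q → Γ → Bool → Q × Γ × Bool
  /-- the output in a state, if any -/
  out : Q → Option Bool

namespace Ctl

variable (C : Ctl)

/-- configurations: the state, the position of the head, the contents of the cells -/
abbrev Conf : Type := C.Q × ℕ × (ℕ → C.Γ)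

/-- the word in the cells `0, …, m - 1` -/
def word (m : ℕ) (x : C.Conf) : List Bool := (List.range m).map fun j => C.bit (x.2.2 j)

/-- The next configuration, if the answer for the word on the tape is `b`. The head does not leave the
cells `0, …, m - 1`. -/
def next (m : ℕ) (x : C.Conf) (b : Bool) : C.Conf :=
  ((C.step x.1 (x.2.2 x.2.1) b).1,
    if (C.step x.1 (x.2.2 x.2.1) b).2.2 = true then min (x.2.1 + 1) (m - 1) else x.2.1 - 1,
    Function.update x.2.2 x.2.1 (C.step x.1 (x.2.2 x.2.1) b).2.1)

/-- the configuration after `t` steps, if `a y` is the answer for the word `y` -/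
def conf (m : ℕ) (a : List Bool → Bool) : ℕ → C.Conf
  | 0 => (C.start, 0, fun _ => C.blank)
  | t + 1 => C.next m (conf m a t) (a (C.word m (conf m a t)))

/-- The controller stops with the output `b`, if `P y β` means that the answer for the word `y` is
`β`: there is an answer at each step before the controller stops. -/
def Gives (m : ℕ) (P : List Bool → Bool → Prop) (b : Bool) : Prop :=
  ∃ (a : List Bool → Bool) (t : ℕ), C.out (C.conf m a t).1 = some b ∧ ∀ s < t,
    C.out (C.conf m a s).1 = none ∧ P (C.word m (C.conf m a s)) (a (C.word m (C.conf m a s)))

end Ctl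

/-! ### Numbers -/

/-- the position of the head in the configuration `z` -/
def zi (k m z : ℕ) : ℕ := z / k % (m + 1)

/-- the contents of the tape in the configuration `z` -/
def zt (k m z : ℕ) : ℕ := z / k / (m + 1)

/-- the word on the tape `τ` -/
def wd (N k T m τ : ℕ) : ℕ :=
  ∑ j ∈ Finset.range m, dg N k T (6 * (k * k) + k + dg N k τ j) * pw N 2 j

/-- the place of the step in the table, if the answer is `l` (`1` no, `2` yes) -/
def cu (N k m z l : ℕ) : ℕ := (z % k * k + dg N k (zt k m z) (zi k m z)) * 2 + (l - 1)

/-- the next configuration, from the place of the step in the table `T` -/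
def zn (N k T m z u : ℕ) : ℕ :=
  (min N (zt k m z - dg N k (zt k m z) (zi k m z) * pw N k (zi k m z) +
    dg N k T (3 * u + 1) * pw N k (zi k m z)) * (m + 1) +
    (if dg N k T (3 * u + 2) = 1 then min (zi k m z + 1) (m - 1) else zi k m z - 1)) * k +
      dg N k T (3 * u)

/-- one step; `l y` is the answer for the word `y` (`0` if there is none) -/
def zs (N k T m : ℕ) (l : ℕ → ℕ) (z : ℕ) : ℕ :=
  if z % k = 0 then z
  else if dg N k T (6 * (k * k) + z % k) ≠ 0 then z
  else if l (wd N k T m (zt k m z)) = 0 then 0
  else zn N k T m z (cu N k m z (l (wd N k T m (zt k m z))))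

/-- the configuration after `s` steps -/
def zr (N k T m : ℕ) (l : ℕ → ℕ) (s : ℕ) : ℕ := Nat.rec 1 (fun _ ih => zs N k T m l ih) s

/-- the output (`1` no, `2` yes) in the configuration `z`, or `0` -/
def zo (N k T z : ℕ) : ℕ := dg N k T (6 * (k * k) + z % k)

end Pool.Agent.helper39.CTL
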