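import Pool.Agent.helper39.CTL.CmpI
import Pool.Agent.helper39.CTL.Core
import Pool.Agent.helper39.MESH.Imm
import Pool.Agent.helper39.MESH.Err

/-!
# The language which is immune against automata with controllers
-/

set_option autoImplicit false

namespace Pool.Agent.helper39.CTL

open Pool.Agent.helper12.SP (TM DSPACE Ctx Pb Cmp CmpP num pw dg pm up np capN capn num_bounds
  num_inj num_surj DSPACE_mono dspace_of_cmp exists_hard pw_eq two_pow_le_capN)
open Pool.Agent.helper39.MESH (Aut tm lst be pb_wk1 lst_prop lst_min lst_le capN_eq dspace_capN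
  exists_fool log_num_eq)

theorem imm_le (c X : ℕ) : imm c X ≤ 1 := by
  unfold imm
  split_ifs <;> omega

theorem immuneT (c : ℕ) (hc : 1 ≤ c) :
    ∃ L : Set (List Bool), (∃ C : ℕ, L ∈ DSPACE (fun n => C * 2 ^ (c * n))) ∧
      ∀ (d : ℕ) [NeZero d] (A : Aut d) (R : Option Ctl) (n₀ : ℕ),
        (∀ w : List Bool, n₀ ≤ w.length → ∀ b : Bool, Ans A R c w [] (fun _ => True) b →
          (b = true ↔ w ∈ L)) →
        {w : List Bool | ∃ b : Bool, Ans A R c w [] (· ≤ tm c d w.length) b}.Finite := by
  refine ⟨{w | imm c (num w) ≠ 0}, dspace_capN hc (cmp_imm c hc), ?_⟩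
  intro d hd0 A R n₀ hA
  have hd : 1 ≤ d := Nat.one_le_iff_ne_zero.2 (NeZero.ne d)
  obtain ⟨n₁, h₁⟩ := simT c hc A R
  obtain ⟨e, he1, he⟩ := h₁ (max n₁ n₀)
  have he2 : n₁ ≤ e := (le_max_left _ _).trans he1
  have he3 : n₀ ≤ e := (le_max_right _ _).trans he1
  have hev : ∀ w : List Bool, e < w.length →
      (egY c (num w) e = 1 → Ans A R c w [] (fun _ => True) false) ∧
      (egY c (num w) e = 2 → Ans A R c w [] (fun _ => True) true) ∧
      ((∃ b, Ans A R c w [] (· ≤ tm c d w.length) b) → egY c (num w) e ≠ 0) ∧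
      egY c (num w) e ≤ 2 := by
    intro w hw
    have hs := he w.length (by omega) w [] rfl (by simp)
    have e1 : egY c (num w) e = eg (capn c w.length) c w.length e (num []) (num w - 2 ^ w.length) := by
      unfold egY capN
      rw [log_num_eq]
      rfl
    rw [e1]
    unfold eg
    refine ⟨fun h => ?_, fun h => ?_, ?_, ?_⟩
    · by_cases h1 : sg 1 (capn c w.length) c w.length e (num []) (num w - 2 ^ w.length) = 1
      · exact (hs.1.1 h1).mono fun _ _ => trivial
      · rw [if_neg h1] at h
        split_ifs at h <;> omega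
    · by_cases h1 : sg 1 (capn c w.length) c w.length e (num []) (num w - 2 ^ w.length) = 1
      · rw [if_pos h1] at h
        omega
      · rw [if_neg h1] at h
        by_cases h2 : sg 2 (capn c w.length) c w.length e (num []) (num w - 2 ^ w.length) = 1
        · exact (hs.2.1 h2).mono fun _ _ => trivial
        · rw [if_neg h2] at h
          omega
    · rintro ⟨b, hb⟩
      cases b with
      | false =>
        rw [if_pos (hs.1.2 hb)]
        omega
      | true =>
        rw [if_pos (hs.2.2 hb)]
        split_ifs <;> omega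
    · split_ifs <;> omega
  have hcore := imm_core c e hc (by
    intro Y hY hev0
    have hY1 : 2 ^ Nat.log 2 Y ≤ Y := Nat.pow_log_le_self 2 (by
      rintro rfl
      simp at hY)
    have hY2 : Y < 2 ^ (Nat.log 2 Y + 1) := Nat.lt_pow_succ_log_self (by norm_num) Y
    rw [pow_succ] at hY2
    obtain ⟨w, hw1, hw2⟩ := num_surj (Nat.log 2 Y) (Y - 2 ^ Nat.log 2 Y) (by omega)
    have hYw : num w = Y := by omega
    have hwne : n₀ ≤ w.length := by omega
    obtain ⟨h1, h2, -, h4⟩ := hev w (by omega)
    rw [hYw] at h1 h2 h4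
    have hle := imm_le c Y
    rcases (by omega : egY c Y e = 1 ∨ egY c Y e = 2) with h | h
    · have h5 := hA w hwne false (h1 h)
      have h6 : imm c Y = 0 := by
        by_contra hcon
        exact absurd (h5.2 (by change imm c (num w) ≠ 0; rw [hYw]; exact hcon)) (by simp)
      omega
    · have h5 : imm c (num w) ≠ 0 := (hA w hwne true (h2 h)).1 rfl
      rw [hYw] at h5
      omega)
  have hinj : Set.InjOn num (num ⁻¹' {Y | e < Nat.log 2 Y ∧ egY c Y e ≠ 0}) :=
    fun w _ w' _ h => num_inj w w' h
  refine ((hcore.preimage hinj).union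
    (List.finite_length_le Bool (max e (max 12 (16 ^ d))))).subset ?_
  rintro w ⟨b, hb⟩
  by_cases hw : w.length ≤ max e (max 12 (16 ^ d))
  · exact Or.inr hw
  · left
    rw [not_le, max_lt_iff, max_lt_iff] at hw
    obtain ⟨hw1, hw2, hw3⟩ := hw
    refine ⟨?_, ?_⟩
    · rw [log_num_eq]
      exact hw1
    · exact (hev w hw1).2.2.1 ⟨b, hb⟩

end Pool.Agent.helper39.CTL
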