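import Pool.Agent.helper39.CTL.Avg
import Pool.Agent.helper39.CTL.Err
import Pool.Agent.helper39.CTL.Imm
import Pool.Agent.helper39.MESH.Dev

/-!
# The theorems for automata and machines of all dimensions with controllers
-/

set_option autoImplicit false

namespace Pool.Agent.helper39.CTL

open Pool.Agent.helper12.SP (DSPACE)
open Pool.Agent.helper39.MESH (Aut Dev InTime tm Dev.exists_aut)

/-- A device (a machine or an automaton of dimension `d`), alone (`none`) or with a controller. -/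
structure CDev (d : ℕ) where
  dev : Dev d
  ctl : Option Ctl

/-- The answer to the input `w` with the parameter `c` and the advice `α` is `b`: the device alone
gives this answer; or the controller with `2 ^ (c n) / (log n + 1)` cells (`n = |w|`) gives it, where
the answer for the word `y` on its tape is the answer of the device to `w` with advice `y ++ α`. All
answers of the device which are used are given at times with the property `p`. -/
def CDev.Answers {d : ℕ} [NeZero d] (D : CDev d) (c : ℕ) (w α : List Bool) (p : ℕ → Prop)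
    (b : Bool) : Prop :=
  match D.ctl with
  | none => ∃ t, p t ∧ D.dev.Answers w α t b
  | some C => C.Gives (2 ^ (c * w.length) / (Nat.log 2 w.length + 1))
      (fun y β => ∃ t, p t ∧ D.dev.Answers w (y ++ α) t β) b

/-- the inputs of length `n` to which `D` with advice `α` gives in time the right answer -/
def right {d : ℕ} [NeZero d] (D : CDev d) (L : Set (List Bool)) (c n : ℕ) (α : List Bool) :
    Set (List Bool) :=
  {w | w.length = n ∧ ∃ b : Bool, D.Answers c w α (InTime c d n) b ∧ (b = true ↔ w ∈ L)}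

theorem CDev.exists_aut (c : ℕ) (hc : 1 ≤ c) {d : ℕ} [NeZero d] (D : CDev d) :
    ∃ (A : Aut d) (n₀ : ℕ), (∀ w α : List Bool, w ≠ [] → ∀ b : Bool,
      Ans A D.ctl c w α (fun _ => True) b → D.Answers c w α (fun _ => True) b) ∧
      ∀ w α : List Bool, n₀ ≤ w.length → ∀ b : Bool, D.Answers c w α (InTime c d w.length) b →
        Ans A D.ctl c w α (· ≤ tm c d w.length) b := by
  obtain ⟨A, n₀, h1, h2⟩ := Dev.exists_aut c hc D.dev
  refine ⟨A, n₀, ?_, ?_⟩
  · intro w α hw b h
    unfold CDev.Answers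
    unfold Ans at h
    cases hC : D.ctl with
    | none =>
      rw [hC] at h
      simp only at h ⊢
      obtain ⟨t, -, ht⟩ := h
      obtain ⟨s, hs⟩ := h1 w α hw t b ht
      exact ⟨s, trivial, hs⟩
    | some C =>
      rw [hC] at h
      simp only at h ⊢
      refine Gives.mono ?_ h
      rintro y β - ⟨t, -, ht⟩
      obtain ⟨s, hs⟩ := h1 w (y ++ α) hw t β ht
      exact ⟨s, trivial, hs⟩
  · intro w α hw b h
    unfold CDev.Answers at h
    unfold Ans
    cases hC : D.ctl with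
    | none =>
      rw [hC] at h
      simp only at h ⊢
      obtain ⟨t, ht, ht'⟩ := h
      obtain ⟨s, hs, hs'⟩ := h2 w α hw t b ht ht'
      exact ⟨s, hs, hs'⟩
    | some C =>
      rw [hC] at h
      simp only at h ⊢
      refine Gives.mono ?_ h
      rintro y β - ⟨t, ht, ht'⟩
      obtain ⟨s, hs, hs'⟩ := h2 w (y ++ α) hw t β ht ht'
      exact ⟨s, hs, hs'⟩

theorem avg (c : ℕ) (hc : 1 ≤ c) :
    ∃ L : Set (List Bool), (∃ C : ℕ, L ∈ DSPACE (fun n => C * 2 ^ (c * n))) ∧
      ∀ (d : ℕ) [NeZero d] (D : CDev d), ∃ n₀ : ℕ, ∀ n ≥ n₀, ∀ α : List Bool,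
        (α.length + 2 * n ≤ 2 ^ n → (right D L c n α).ncard < 2 ^ n) ∧
        (2 * (right D L c n α).ncard - 2 ^ n) ^ 2 ≤ 2 * 2 ^ n * (α.length + 2 * n) := by
  obtain ⟨L, hL, h⟩ := avgT c hc
  refine ⟨L, hL, fun d hd D => ?_⟩
  obtain ⟨A, n₁, -, hA⟩ := CDev.exists_aut c hc D
  obtain ⟨n₂, hn₂⟩ := h d A D.ctl
  refine ⟨max n₁ n₂, fun n hn α => ?_⟩
  have h1 : n₁ ≤ n := (le_max_left _ _).trans hn
  have h2 : n₂ ≤ n := (le_max_right _ _).trans hn
  have hsub : right D L c n α ⊆ rightT A D.ctl L c n α := by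
    rintro w ⟨hw, b, hD, hb⟩
    subst hw
    exact ⟨rfl, b, hA w α h1 b hD, hb⟩
  have hfin : (rightT A D.ctl L c n α).Finite :=
    (List.finite_length_eq Bool n).subset fun w hw => hw.1
  have hle := Set.ncard_le_ncard hsub hfin
  obtain ⟨h3, h4⟩ := hn₂ n h2 α
  exact ⟨fun hα => hle.trans_lt (h3 hα),
    (Nat.pow_le_pow_left (Nat.sub_le_sub_right (Nat.mul_le_mul_left _ hle) _) 2).trans h4⟩

theorem errorless (c : ℕ) (hc : 1 ≤ c) :
    ∃ L : Set (List Bool), (∃ C : ℕ, L ∈ DSPACE (fun n => C * 2 ^ (c * n))) ∧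
      ∀ (d : ℕ) [NeZero d] (D : CDev d), ∃ n₀ : ℕ, ∀ n ≥ n₀, ∀ α : List Bool,
        (∀ (w : List Bool) (b : Bool), w.length = n → D.Answers c w α (fun _ => True) b →
          (b = true ↔ w ∈ L)) →
        {w : List Bool | w.length = n ∧ ∃ b : Bool, D.Answers c w α (InTime c d n) b}.ncard ≤
            α.length + 2 * Nat.log 2 (α.length + 1) + Nat.log 2 n + 4 := by
  obtain ⟨L, hL, h⟩ := errorlessT c hc
  refine ⟨L, hL, fun d hd D => ?_⟩
  obtain ⟨A, n₁, hA', hA⟩ := CDev.exists_aut c hc D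
  obtain ⟨n₂, hn₂⟩ := h d A D.ctl
  refine ⟨max (max n₁ n₂) 1, fun n hn α hα => ?_⟩
  have h1 : n₁ ≤ n := (le_max_left _ _).trans ((le_max_left _ _).trans hn)
  have h2 : n₂ ≤ n := (le_max_right _ _).trans ((le_max_left _ _).trans hn)
  have h3 : 1 ≤ n := (le_max_right _ _).trans hn
  refine le_trans (Set.ncard_le_ncard ?_ ?_) (hn₂ n h2 α ?_)
  · rintro w ⟨hw, b, hD⟩
    subst hw
    exact ⟨rfl, b, hA w α h1 b hD⟩
  · exact (List.finite_length_eq Bool n).subset fun w hw => hw.1
  · intro w b hw hAw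
    have hne : w ≠ [] := by
      rintro rfl
      simp at hw
      omega
    exact hα w b hw (hA' w α hne b hAw)

theorem immune (c : ℕ) (hc : 1 ≤ c) :
    ∃ L : Set (List Bool), (∃ C : ℕ, L ∈ DSPACE (fun n => C * 2 ^ (c * n))) ∧
      ∀ (d : ℕ) [NeZero d] (D : CDev d),
        {w : List Bool | ∃ b : Bool, D.Answers c w [] (fun _ => True) b ∧
          ¬ (b = true ↔ w ∈ L)}.Finite →
        {w : List Bool | ∃ b : Bool, D.Answers c w [] (InTime c d w.length) b}.Finite := by
  obtain ⟨L, hL, h⟩ := immuneT c hc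
  refine ⟨L, hL, fun d hd D hD => ?_⟩
  obtain ⟨A, n₁, hA', hA⟩ := CDev.exists_aut c hc D
  obtain ⟨n₂, hn₂⟩ : ∃ n₂ : ℕ, ∀ w ∈ {w : List Bool | ∃ b : Bool,
      D.Answers c w [] (fun _ => True) b ∧ ¬ (b = true ↔ w ∈ L)}, w.length < n₂ := by
    obtain ⟨m, hm⟩ := (hD.image List.length).bddAbove
    exact ⟨m + 1, fun w hw => Nat.lt_succ_of_le (hm (Set.mem_image_of_mem _ hw))⟩
  have h0 : ∀ w : List Bool, n₂ + 1 ≤ w.length → ∀ b : Bool,
      Ans A D.ctl c w [] (fun _ => True) b → (b = true ↔ w ∈ L) := by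
    intro w hw b hb
    have hne : w ≠ [] := by
      rintro rfl
      simp at hw
    by_contra hcon
    have := hn₂ w ⟨b, hA' w [] hne b hb, hcon⟩
    omega
  refine ((h d A D.ctl (n₂ + 1) h0).union (List.finite_length_le Bool n₁)).subset ?_
  rintro w ⟨b, hw⟩
  by_cases h1 : w.length ≤ n₁
  · exact Or.inr h1
  · exact Or.inl ⟨b, hA w [] (by omega) b hw⟩

end Pool.Agent.helper39.CTL
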