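import Pool.Agent.helper39.CTL.CmpT

/-!
# The definitions of the languages, for automata with controllers
-/

set_option autoImplicit false

namespace Pool.Agent.helper39.CTL

open Pool.Agent.helper12.SP (TM DSPACE Ctx Pb Cmp CmpP num pw dg pm up np capN capn num_bounds
  num_inj DSPACE_mono dspace_of_cmp exists_hard pw_eq two_pow_le_capN)
open Pool.Agent.helper39.MESH (lst be)

/-! ### The language -/

/-- the number of inputs of length `n` on which the automaton `e` with advice `Z` gives in time the
answer prescribed by the bits of `Λ` -/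
def ag (N c n e Z Λ : ℕ) : ℕ :=
  ∑ r ∈ Finset.range (pw N 2 n), if sg 1 N c n e Z r + dg N 2 Λ r = 1 then 1 else 0

/-- the bits of `Λ` are hard for all automata `e` with advice `Z` -/
def good (N c n Λ : ℕ) : Prop :=
  ∀ e < n, ∀ Z < pw N 2 (pw N 2 n + 1 - 2 * n),
    ag N c n e Z Λ < pw N 2 n ∧
      (2 * ag N c n e Z Λ - pw N 2 n) ^ 2 ≤ 2 * pw N 2 n * (Nat.log 2 Z + 2 * n)

instance (N c n : ℕ) : DecidablePred (good N c n) := by
  intro Λ
  unfold good
  infer_instance

/-- the characteristic function of the language -/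
def hard (c X : ℕ) : ℕ :=
  dg (capN c X) 2 (lst (good (capN c X) c (Nat.log 2 X))
    (pw (capN c X) 2 (pw (capN c X) 2 (Nat.log 2 X)))) (X - 2 ^ Nat.log 2 X)

/-! ### The language for errorless automata -/

/-- the answer of the automaton `e` with advice `Z` on the input number `r`: `1` no, `2` yes, `0`
none in time -/
def eg (N c n e Z r : ℕ) : ℕ :=
  if sg 1 N c n e Z r = 1 then 1 else if sg 2 N c n e Z r = 1 then 2 else 0

/-- the number of answered inputs -/
def an (N c n e Z : ℕ) : ℕ :=
  ∑ r ∈ Finset.range (pw N 2 n), if eg N c n e Z r = 0 then 0 else 1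

/-- every automaton with advice which answers too many inputs gives a wrong answer for `Λ` -/
def fool (N c n Λ : ℕ) : Prop :=
  ∀ e < n, ∀ Z < pw N 2 (pw N 2 n), an N c n e Z ≤ be n Z ∨
    ∃ r < pw N 2 n, eg N c n e Z r ≠ 0 ∧ eg N c n e Z r ≠ 1 + dg N 2 Λ r

instance (N c n : ℕ) : DecidablePred (fool N c n) := by
  intro Λ
  unfold fool
  infer_instance

/-- the characteristic function of the language -/
def herr (c X : ℕ) : ℕ :=
  dg (capN c X) 2 (lst (fool (capN c X) c (Nat.log 2 X))
    (pw (capN c X) 2 (pw (capN c X) 2 (Nat.log 2 X)))) (X - 2 ^ Nat.log 2 X)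

/-! ### The immune language -/

/-- the answer of the automaton `e` without advice on the input `Y` -/
def egY (c Y e : ℕ) : ℕ := eg (capN c Y) c (Nat.log 2 Y) e 1 (Y - 2 ^ Nat.log 2 Y)

/-- the least automaton which is not cancelled (is not in the set coded by `m`) and answers `Y` -/
def le1 (c Y m : ℕ) : ℕ :=
  lst (fun e => dg (capN c Y) 2 m e = 0 ∧ egY c Y e ≠ 0) (Nat.log 2 Y)

/-- cancel it -/
def um (c Y m : ℕ) : ℕ :=
  if le1 c Y m < Nat.log 2 Y then m + pw (capN c Y) 2 (le1 c Y m) else m

/-- the set of the automata cancelled before the input `X` -/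
def mk (c X : ℕ) : ℕ := Nat.rec 0 (fun Y ih => um c Y ih) X

/-- the characteristic function of the language -/
def imm (c X : ℕ) : ℕ :=
  if le1 c X (mk c X) < Nat.log 2 X ∧ egY c X (le1 c X (mk c X)) = 1 then 1 else 0

end Pool.Agent.helper39.CTL
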