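import Pool.Agent.helper39.CTL.Cor

/-!
# The runs of the number-coded controllers, and the codes of controllers
-/

set_option autoImplicit false

namespace Pool.Agent.helper39.CTL

open Pool.Agent.helper12.SP (pw dg)
open Pool.Agent.helper39.MESH.Cod (sum_digits_lt sum_digits)

theorem conf_pos (C : Ctl) {m : ℕ} (hm : 1 ≤ m) (a : List Bool → Bool) (s : ℕ) :
    (C.conf m a s).2.1 < m := by
  induction s with
  | zero => exact hm
  | succ s ih =>
    show (C.next m (C.conf m a s) (a (C.word m (C.conf m a s)))).2.1 < m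
    unfold Ctl.next
    simp only
    split_ifs
    · exact (min_le_right _ _).trans_lt (by omega)
    · omega

section

variable {C : Ctl} {N k T : ℕ} {cQ : C.Q → ℕ} {cΓ : C.Γ → ℕ} (H : Codes C N k T cQ cΓ)

include H

theorem zo_zero : zo N k T 0 = 0 := by
  unfold zo
  rw [Nat.zero_mod, Nat.add_zero, H.o0]

omit H in
theorem zs_zero (m : ℕ) (l : ℕ → ℕ) : zs N k T m l 0 = 0 := by
  unfold zs
  rw [Nat.zero_mod, if_pos rfl]

theorem zs_stop {m : ℕ} (l : ℕ → ℕ) {x : C.Conf} {b : Bool}
    (ho : C.out x.1 = some b) : zs N k T m l (cz cQ cΓ k m x) = cz cQ cΓ k m x := by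
  unfold zs
  rw [cz_mod H, if_neg (by have := H.q1 x.1; omega), H.o, ho, if_pos]
  show 1 + b.toNat ≠ 0
  omega

theorem zs_run {m : ℕ} (hm : 1 ≤ m) (hN : k ^ m ≤ N) (hN2 : 2 ^ m ≤ N) (E : List Bool → ℕ)
    (l : ℕ → ℕ) (hl : ∀ y < 2 ^ m, l y = E (bl m y)) {x : C.Conf} (hx : x.2.1 < m)
    (ho : C.out x.1 = none) :
    (E (C.word m x) = 0 → zs N k T m l (cz cQ cΓ k m x) = 0) ∧
    (∀ b : Bool, E (C.word m x) = 1 + b.toNat →
      zs N k T m l (cz cQ cΓ k m x) = cz cQ cΓ k m (C.next m x b)) := by
  have hx' : x.2.1 < m + 1 := by omega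
  have h1 : l (wd N k T m (zt k m (cz cQ cΓ k m x))) = E (C.word m x) := by
    rw [cz_zt H hx', cz_wd H hN hN2, hl _ (sum_bits_lt m _), bl_sum]
    rfl
  unfold zs
  rw [cz_mod H, if_neg (by have := H.q1 x.1; omega), H.o, ho, if_neg (by simp), h1]
  constructor
  · intro h
    rw [if_pos h]
  · intro b h
    rw [if_neg (by omega), h]
    exact cz_next H hm hN hx b

theorem run_spec {m : ℕ} (hm : 1 ≤ m) (hN : k ^ m ≤ N) (hN2 : 2 ^ m ≤ N)
    (hN3 : k ^ m * (m + 1) * k ≤ N) (E : List Bool → ℕ) (hE : ∀ y, y.length = m → E y ≤ 2)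
    (l : ℕ → ℕ) (hl : ∀ y < 2 ^ m, l y = E (bl m y)) (b : Bool) :
    zo N k T (zr N k T m l N) = 1 + b.toNat ↔ C.Gives m (fun y β => E y = 1 + β.toNat) b := by
  classical
  have hZ0 : ∀ a, zr N k T m l 0 = cz cQ cΓ k m (C.conf m a 0) := by
    intro a
    show 1 = (tape cΓ k m (fun _ => C.blank) * (m + 1) + 0) * k + cQ C.start
    have h1 : tape cΓ k m (fun _ => C.blank) = 0 := by
      simp [tape, H.g0]
    rw [h1, H.q0]
    omega
  have hlen : ∀ x : C.Conf, (C.word m x).length = m := fun x => by simp [Ctl.word]
  set a0 : List Bool → Bool := fun y => decide (E y = 2) with ha0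
  have hEa : ∀ x : C.Conf, E (C.word m x) ≠ 0 →
      E (C.word m x) = 1 + (a0 (C.word m x)).toNat := by
    intro x hx
    have h1 := hE _ (hlen x)
    simp only [ha0]
    by_cases h2 : E (C.word m x) = 2
    · simp [h2]
    · have h3 : E (C.word m x) = 1 := by omega
      simp [h3]
  constructor
  · intro hb
    have key : ∀ s, zr N k T m l s = 0 ∨ ∃ s' ≤ s, zr N k T m l s = cz cQ cΓ k m (C.conf m a0 s') ∧
        (s' = s ∨ ∃ b', C.out (C.conf m a0 s').1 = some b') ∧
        ∀ u < s', C.out (C.conf m a0 u).1 = none ∧ E (C.word m (C.conf m a0 u)) ≠ 0 := by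
      intro s
      induction s with
      | zero => exact Or.inr ⟨0, le_rfl, hZ0 a0, Or.inl rfl, fun u hu => absurd hu (Nat.not_lt_zero u)⟩
      | succ s ih =>
        have hs : zr N k T m l (s + 1) = zs N k T m l (zr N k T m l s) := rfl
        rcases ih with h0 | ⟨s', hs', hz, hd, hu⟩
        · left
          rw [hs, h0, zs_zero]
        · rcases ho : C.out (C.conf m a0 s').1 with _ | b'
          · have hss : s' = s := by
              rcases hd with hd | ⟨b', hb'⟩
              · exact hd
              · rw [ho] at hb'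
                exact absurd hb' (by simp)
            subst hss
            obtain ⟨h1, h2⟩ := zs_run H hm hN hN2 E l hl (conf_pos C hm a0 s') ho
            by_cases hE0 : E (C.word m (C.conf m a0 s')) = 0
            · left
              rw [hs, hz, h1 hE0]
            · right
              refine ⟨s' + 1, le_rfl, ?_, Or.inl rfl, ?_⟩
              · rw [hs, hz, h2 _ (hEa _ hE0)]
                rfl
              · intro u hu'
                rcases Nat.lt_succ_iff_lt_or_eq.1 hu' with h3 | h3
                · exact hu u h3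
                · rw [h3]
                  exact ⟨ho, hE0⟩
          · right
            refine ⟨s', by omega, ?_, Or.inr ⟨b', ho⟩, hu⟩
            rw [hs, hz, zs_stop H l ho]
    rcases key N with h0 | ⟨s', -, hz, -, hu⟩
    · rw [h0, zo_zero H] at hb
      omega
    · rw [hz, cz_out H] at hb
      refine ⟨a0, s', ?_, fun s hs => ⟨(hu s hs).1, hEa _ (hu s hs).2⟩⟩
      rcases ho : C.out (C.conf m a0 s').1 with _ | b'
      · rw [ho] at hb
        exact absurd hb (by show 0 ≠ 1 + b.toNat; omega)
      · rw [ho] at hb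
        have h3 : 1 + b'.toNat = 1 + b.toNat := hb
        cases b <;> cases b' <;> simp_all
  · rintro ⟨a, t, ho, hs⟩
    have hconf : ∀ s ≤ t, C.conf m a s = C.conf m a0 s := by
      intro s
      induction s with
      | zero => intro _; rfl
      | succ s ih =>
        intro hst
        have h1 := ih (by omega)
        show C.next m (C.conf m a s) (a (C.word m (C.conf m a s))) =
          C.next m (C.conf m a0 s) (a0 (C.word m (C.conf m a0 s)))
        rw [h1]
        congr 1
        have h2 := (hs s (by omega)).2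
        rw [h1] at h2
        show a (C.word m (C.conf m a0 s)) = decide (E (C.word m (C.conf m a0 s)) = 2)
        rw [h2]
        cases a (C.word m (C.conf m a0 s)) <;> simp
    have hZ : ∀ s ≤ t, zr N k T m l s = cz cQ cΓ k m (C.conf m a0 s) := by
      intro s
      induction s with
      | zero => intro _; exact hZ0 a0
      | succ s ih =>
        intro hst
        have h1 := ih (by omega)
        have h2 := hs s (by omega)
        rw [hconf s (by omega)] at h2
        have h3 := (zs_run H hm hN hN2 E l hl (conf_pos C hm a0 s) h2.1).2 _ (hEa _ (by omega))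
        show zs N k T m l (zr N k T m l s) = _
        rw [h1, h3]
        rfl
    rw [hconf t le_rfl] at ho
    have hstop : ∀ x, zr N k T m l (t + x) = zr N k T m l t := by
      intro x
      induction x with
      | zero => rfl
      | succ x ih =>
        show zs N k T m l (zr N k T m l (t + x)) = _
        rw [ih, hZ t le_rfl, zs_stop H l ho]
    have hlt : ∀ s, zr N k T m l s < k ^ m * (m + 1) * k := by
      intro s
      have h1 : ∀ s ≤ t, zr N k T m l s < k ^ m * (m + 1) * k := by
        intro s hs
        rw [hZ s hs]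
        exact cz_lt H (by have := conf_pos C hm a0 s; omega)
      rcases Nat.le_total s t with h | h
      · exact h1 s h
      · obtain ⟨x, rfl⟩ : ∃ x, s = t + x := ⟨s - t, by omega⟩
        rw [hstop]
        exact h1 t le_rfl
    have htK : t ≤ k ^ m * (m + 1) * k := by
      refine reach (F := zs N k T m l) (Z := zr N k T m l) (fun s => rfl)
        (H := fun z => zo N k T z ≠ 0) hlt ?_ ?_
      · show zo N k T (zr N k T m l t) ≠ 0
        rw [hZ t le_rfl, cz_out H, ho]
        show 1 + b.toNat ≠ 0
        omega
      · intro s hst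
        show ¬ zo N k T (zr N k T m l s) ≠ 0
        have h2 := hs s hst
        rw [hconf s hst.le] at h2
        rw [hZ s hst.le, cz_out H, h2.1]
        simp
    have h4 : zr N k T m l N = zr N k T m l t := by
      have h5 := hstop (N - t)
      rwa [Nat.add_sub_cancel' (by omega : t ≤ N)] at h5
    rw [h4, hZ t le_rfl, cz_out H, ho]
    rfl

end

end Pool.Agent.helper39.CTL
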