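import Pool.Agent.helper39.CTL.Tab

/-!
# The simulation of automata with controllers by the family `sg`
-/

set_option autoImplicit false

namespace Pool.Agent.helper39.CTL

open Pool.Agent.helper12.SP (TM DSPACE Ctx Pb Cmp num pw dg pm up np capn num_bounds num_inj
  num_surj two_pow_le_capn pow_le_capn)
open Pool.Agent.helper39.MESH (Aut InTime tm hh nvd nconf out_eq params sm ev sm_zero_or_one
  Answers_unique)

/-! ### Facts about controllers -/

theorem word_length (C : Ctl) (m : ℕ) (x : C.Conf) : (C.word m x).length = m := by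
  simp [Ctl.word]

theorem Gives.mono {C : Ctl} {m : ℕ} {P P' : List Bool → Bool → Prop} {b : Bool}
    (h : ∀ y β, y.length = m → P y β → P' y β) (hP : C.Gives m P b) : C.Gives m P' b := by
  obtain ⟨a, t, h1, h2⟩ := hP
  exact ⟨a, t, h1, fun s hs => ⟨(h2 s hs).1, h _ _ (word_length C m _) (h2 s hs).2⟩⟩

theorem Gives.unique {C : Ctl} {m : ℕ} {P P' : List Bool → Bool → Prop} {b b' : Bool}
    (h : ∀ y β β', P y β → P' y β' → β = β') (hP : C.Gives m P b) (hP' : C.Gives m P' b') :
    b = b' := by
  obtain ⟨a, t, h1, h2⟩ := hP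
  obtain ⟨a', t', h1', h2'⟩ := hP'
  have hconf : ∀ s, s ≤ t → s ≤ t' → C.conf m a s = C.conf m a' s := by
    intro s
    induction s with
    | zero => intro _ _; rfl
    | succ s ih =>
      intro hs hs'
      have h3 := ih (by omega) (by omega)
      have h4 := (h2 s (by omega)).2
      have h5 := (h2' s (by omega)).2
      rw [← h3] at h5
      show C.next m (C.conf m a s) (a (C.word m (C.conf m a s))) =
        C.next m (C.conf m a' s) (a' (C.word m (C.conf m a' s)))
      rw [← h3, h _ _ _ h4 h5]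
  rcases lt_trichotomy t t' with ht | ht | ht
  · have h3 := (h2' t ht).1
    rw [← hconf t le_rfl ht.le, h1] at h3
    exact absurd h3 (by simp)
  · subst ht
    rw [hconf t le_rfl le_rfl, h1'] at h1
    exact (Option.some.inj h1).symm
  · have h3 := (h2 t' ht).1
    rw [hconf t' ht.le le_rfl, h1'] at h3
    exact absurd h3 (by simp)

/-! ### The family -/

/-- the number of cells of a controller, for inputs of length `n` -/
def cells (c n : ℕ) : ℕ := 2 ^ (c * n) / (Nat.log 2 n + 1)

/-- the answer (`1` no, `2` yes, `0` none in time) of the automaton `e` for the word `y` -/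
def lan (N c n e Z r y : ℕ) : ℕ := ev N c n e (y + pw N 2 (cells c n) * Z) r

/-- `1` if the answer of the automaton `e` with the controller `(k, T)` is `v`; there is no controller
if `k = 0` -/
def sgk (v N c n e k T Z r : ℕ) : ℕ :=
  if (if k = 0 then ev N c n e Z r else zo N k T (zr N k T (cells c n) (lan N c n e Z r) N)) = v
    then 1 else 0

/-- the automaton with a controller coded by `e` -/
def sg (v N c n e Z r : ℕ) : ℕ :=
  sgk v N c n (Nat.unpair e).1 (Nat.unpair (Nat.unpair e).2).1 (Nat.unpair (Nat.unpair e).2).2 Z r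

theorem sg_zero_or_one (v N c n e Z r : ℕ) : sg v N c n e Z r = 0 ∨ sg v N c n e Z r = 1 := by
  unfold sg sgk
  by_cases h : (if (Nat.unpair (Nat.unpair e).2).1 = 0 then ev N c n (Nat.unpair e).1 Z r else
    zo N (Nat.unpair (Nat.unpair e).2).1 (Nat.unpair (Nat.unpair e).2).2
      (zr N (Nat.unpair (Nat.unpair e).2).1 (Nat.unpair (Nat.unpair e).2).2 (cells c n)
        (lan N c n (Nat.unpair e).1 Z r) N)) = v
  · rw [if_pos h]
    exact Or.inr rfl
  · rw [if_neg h]
    exact Or.inl rfl

/-- every automaton is simulated, with arbitrarily large codes `e` and with long advice -/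
theorem sim' (c : ℕ) (hc : 1 ≤ c) {d : ℕ} [NeZero d] (A : Aut d) : ∃ n₀, ∀ B, ∃ e ≥ B,
    ∀ n ≥ n₀, ∀ w β : List Bool, w.length = n → num β < capn c n →
      (∀ b : Bool, ev (capn c n) c n e (num β) (num w - 2 ^ n) = 1 + b.toNat ↔
        ∃ t ≤ tm c d n, A.Answers w β t b) ∧
      ev (capn c n) c n e (num β) (num w - 2 ^ n) ≤ 2 := by
  have hd : 1 ≤ d := Nat.one_le_iff_ne_zero.2 (NeZero.ne d)
  obtain ⟨q, M, hq, hcode⟩ := MESH.code A
  obtain ⟨n₀, hn₀⟩ := MESH.sm_spec_cap (M := M) hc hd hq
  refine ⟨n₀, fun B => ?_⟩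
  refine ⟨Nat.pair (Nat.pair d (Nat.pair q M)) B, Nat.right_le_pair _ _, fun n hn w β hw hβ => ?_⟩
  have hwb := num_bounds w
  rw [hw, pow_succ] at hwb
  have hwn : 2 ^ n + (num w - 2 ^ n) = num w := by omega
  have key := hn₀ n hn (Nat.pair (Nat.pair d (Nat.pair q M)) B) (by simp) (by simp) (by simp)
  have k1 := key 1 (num β) hβ (num w - 2 ^ n) (by omega)
  have k2 := key 2 (num β) hβ (num w - 2 ^ n) (by omega)
  rw [hwn] at k1 k2
  have h1 : sm 1 (capn c n) c n (Nat.pair (Nat.pair d (Nat.pair q M)) B) (num β) (num w - 2 ^ n) = 1 ↔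
      ∃ t ≤ tm c d n, A.Answers w β t false := by
    rw [k1, ← (hcode w β (tm c d n)).1]
    split_ifs with h <;> simp [h]
  have h2 : sm 2 (capn c n) c n (Nat.pair (Nat.pair d (Nat.pair q M)) B) (num β) (num w - 2 ^ n) = 1 ↔
      ∃ t ≤ tm c d n, A.Answers w β t true := by
    rw [k2, ← (hcode w β (tm c d n)).2]
    split_ifs with h <;> simp [h]
  have h3 : (∃ t ≤ tm c d n, A.Answers w β t false) → ¬ ∃ t ≤ tm c d n, A.Answers w β t true := by
    rintro ⟨t, -, ht⟩ ⟨t', -, ht'⟩
    exact absurd (Answers_unique A ht ht').2 (by simp)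
  rw [← h1, ← h2] at h3
  unfold ev
  refine ⟨?_, ?_⟩
  · intro b
    cases b with
    | false =>
      rw [← h1]
      show _ = 1 ↔ _
      split_ifs with h h' <;> simp [h]
    | true =>
      rw [← h2]
      show _ = 2 ↔ _
      by_cases h : sm 1 (capn c n) c n (Nat.pair (Nat.pair d (Nat.pair q M)) B) (num β)
          (num w - 2 ^ n) = 1
      · rw [if_pos h]
        simp [h3 h]
      · rw [if_neg h]
        split_ifs with h' <;> simp [h']
  · split_ifs <;> omega

/-- On the input `w` with advice `α`, the automaton `A` alone (`none`) or with a controller gives the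
answer `b`, all answers of `A` which are used being given at times with the property `p`. -/
def Ans {d : ℕ} [NeZero d] (A : Aut d) (R : Option Ctl) (c : ℕ) (w α : List Bool) (p : ℕ → Prop)
    (b : Bool) : Prop :=
  match R with
  | none => ∃ t, p t ∧ A.Answers w α t b
  | some C => C.Gives (2 ^ (c * w.length) / (Nat.log 2 w.length + 1))
      (fun y β => ∃ t, p t ∧ A.Answers w (y ++ α) t β) b

theorem Ans.unique {d : ℕ} [NeZero d] {A : Aut d} {R : Option Ctl} {c : ℕ} {w α : List Bool}
    {p p' : ℕ → Prop} {b b' : Bool} (h : Ans A R c w α p b) (h' : Ans A R c w α p' b') :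
    b = b' := by
  cases R with
  | none =>
    obtain ⟨t, -, ht⟩ := h
    obtain ⟨t', -, ht'⟩ := h'
    exact (Answers_unique A ht ht').2
  | some C =>
    simp only [Ans] at h h'
    refine Gives.unique ?_ h h'
    rintro y β β' ⟨t, -, ht⟩ ⟨t', -, ht'⟩
    exact (Answers_unique A ht ht').2

theorem Ans.mono {d : ℕ} [NeZero d] {A : Aut d} {R : Option Ctl} {c : ℕ} {w α : List Bool}
    {p p' : ℕ → Prop} {b : Bool} (hp : ∀ t, p t → p' t) (h : Ans A R c w α p b) :
    Ans A R c w α p' b := by
  cases R with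
  | none =>
    obtain ⟨t, ht, ht'⟩ := h
    exact ⟨t, hp t ht, ht'⟩
  | some C =>
    simp only [Ans] at h ⊢
    refine Gives.mono ?_ h
    rintro y β - ⟨t, ht, ht'⟩
    exact ⟨t, hp t ht, ht'⟩

theorem simT (c : ℕ) (hc : 1 ≤ c) {d : ℕ} [NeZero d] (A : Aut d) (R : Option Ctl) :
    ∃ n₀, ∀ B, ∃ e ≥ B, ∀ n ≥ n₀, ∀ w α : List Bool, w.length = n → α.length < 2 ^ n →
      (sg 1 (capn c n) c n e (num α) (num w - 2 ^ n) = 1 ↔ Ans A R c w α (· ≤ tm c d n) false) ∧
      (sg 2 (capn c n) c n e (num α) (num w - 2 ^ n) = 1 ↔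
        Ans A R c w α (· ≤ tm c d n) true) := by
  obtain ⟨n₁, h₁⟩ := sim' c hc A
  have hcap : ∀ n, 2 ^ n ≤ 2 ^ (c * n) := fun n =>
    Nat.pow_le_pow_right (by norm_num) (Nat.le_mul_of_pos_left n hc)
  have hsg : ∀ v N n e k T Z r, sg v N c n (Nat.pair e (Nat.pair k T)) Z r = 1 ↔
      (if k = 0 then ev N c n e Z r else zo N k T (zr N k T (cells c n) (lan N c n e Z r) N)) = v := by
    intro v N n e k T Z r
    unfold sg sgk
    rw [Nat.unpair_pair, Nat.unpair_pair]
    simp only
    by_cases h : (if k = 0 then ev N c n e Z r else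
      zo N k T (zr N k T (cells c n) (lan N c n e Z r) N)) = v
    · rw [if_pos h]
      exact ⟨fun _ => h, fun _ => rfl⟩
    · rw [if_neg h]
      exact ⟨fun h' => absurd h' (by norm_num), fun h' => absurd h' h⟩
  cases R with
  | none =>
    refine ⟨n₁, fun B => ?_⟩
    obtain ⟨e, heB, he⟩ := h₁ B
    refine ⟨Nat.pair e (Nat.pair 0 0), heB.trans (Nat.left_le_pair _ _), fun n hn w α hw hα => ?_⟩
    have hα' : num α < capn c n := by
      refine (num_bounds α).2.trans_le (two_pow_le_capn ?_)
      have h1 := hcap n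
      have h2 : 2 ^ (c * n) ≤ 8 * (c + 8) * 2 ^ (c * n) := Nat.le_mul_of_pos_left _ (by positivity)
      omega
    have h2 := (he n hn w α hw hα').1
    constructor
    · rw [hsg, if_pos rfl]
      exact h2 false
    · rw [hsg, if_pos rfl]
      exact h2 true
  | some C =>
    obtain ⟨k, T, K, hk, hK⟩ := exists_codes C
    refine ⟨max n₁ (max 1 (max (2 ^ k) K)), fun B => ?_⟩
    obtain ⟨e, heB, he⟩ := h₁ B
    refine ⟨Nat.pair e (Nat.pair k T), heB.trans (Nat.left_le_pair _ _), fun n hn w α hw hα => ?_⟩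
    have hn1 : n₁ ≤ n := (le_max_left _ _).trans hn
    have hnn1 : 1 ≤ n := (le_max_left _ _).trans ((le_max_right _ _).trans hn)
    have hnk : k ≤ Nat.log 2 n := Nat.le_log_of_pow_le (by norm_num)
      ((le_max_left _ _).trans ((le_max_right _ _).trans ((le_max_right _ _).trans hn)))
    have hlg : Nat.log 2 n ≤ n := Nat.log_le_self 2 n
    have hnK : K ≤ n :=
      (le_max_right _ _).trans ((le_max_right _ _).trans ((le_max_right _ _).trans hn))
    have hnn : n < 2 ^ n := Nat.lt_two_pow_self
    have h2n := hcap n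
    set N := capn c n with hN
    set m := cells c n with hm
    set g := Nat.log 2 n with hg
    have hmn : m * (g + 1) ≤ 2 ^ (c * n) := Nat.div_mul_le_self _ _
    have hm1 : 1 ≤ m := by
      rw [hm, cells]
      exact (Nat.one_le_div_iff (by omega)).2 (by omega)
    have hmle : m ≤ 2 ^ (c * n) := (Nat.le_mul_of_pos_right m (Nat.succ_pos g)).trans hmn
    have hN2 : 2 ^ m ≤ N := two_pow_le_capn (hmle.trans (Nat.le_mul_of_pos_left _ (by positivity)))
    have hNK : K ≤ N := by
      have h1 : 2 ^ n ≤ N := two_pow_le_capn (by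
        have : n ≤ 2 ^ (c * n) := by omega
        exact this.trans (Nat.le_mul_of_pos_left _ (by positivity)))
      omega
    have hnm : g * m + m ≤ 2 ^ (c * n) := by
      have h3 : m * (g + 1) = g * m + m := by ring
      omega
    have hgg : g < 2 ^ g := Nat.lt_two_pow_self
    have hNk : k ^ m ≤ N := by
      refine pow_le_capn (b := g) (by omega) ?_
      have h3 : 2 ^ (c * n) ≤ 8 * (c + 8) * 2 ^ (c * n) := Nat.le_mul_of_pos_left _ (by positivity)
      omega
    have hNk3 : k ^ m * (m + 1) * k ≤ N := by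
      have h1 : k ^ m ≤ 2 ^ (g * m) := by
        rw [pow_mul]
        exact Nat.pow_le_pow_left (by omega) m
      have h2 : m + 1 ≤ 2 ^ (c * n + 1) := by
        rw [pow_succ]
        have : 1 ≤ 2 ^ (c * n) := Nat.one_le_two_pow
        omega
      have h3 : k ≤ 2 ^ n := by omega
      calc k ^ m * (m + 1) * k ≤ 2 ^ (g * m) * 2 ^ (c * n + 1) * 2 ^ n :=
            Nat.mul_le_mul (Nat.mul_le_mul h1 h2) h3
        _ = 2 ^ (g * m + (c * n + 1) + n) := by rw [← pow_add, ← pow_add]
        _ ≤ N := by
            refine two_pow_le_capn ?_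
            have h4 : c * n + 1 ≤ 2 ^ (c * n) := Nat.lt_two_pow_self
            have h5 : 3 * 2 ^ (c * n) ≤ 8 * (c + 8) * 2 ^ (c * n) :=
              Nat.mul_le_mul_right _ (by omega)
            omega
    have hcapz : ∀ z : List Bool, z.length = m → num (z ++ α) < N := by
      intro z hz
      refine (num_bounds (z ++ α)).2.trans_le (two_pow_le_capn ?_)
      rw [List.length_append, hz]
      have h5 : 3 * 2 ^ (c * n) ≤ 8 * (c + 8) * 2 ^ (c * n) :=
        Nat.mul_le_mul_right _ (by omega)
      omega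
    obtain ⟨cQ, cΓ, H⟩ := hK N hNK
    set r := num w - 2 ^ n with hr
    set E : List Bool → ℕ := fun z => ev N c n e (num (z ++ α)) r with hE
    have hpw : pw N 2 m = 2 ^ m := min_eq_left hN2
    have hl : ∀ y < 2 ^ m, lan N c n e (num α) r y = E (bl m y) := by
      intro y hy
      unfold lan
      rw [← hm, hpw, ← num_bl m y hy α]
    have hE2 : ∀ y : List Bool, y.length = m → E y ≤ 2 := fun y hy =>
      (he n hn1 w (y ++ α) hw (hcapz y hy)).2
    have key : ∀ b : Bool, zo N k T (zr N k T m (lan N c n e (num α) r) N) = 1 + b.toNat ↔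
        Ans A (some C) c w α (· ≤ tm c d n) b := by
      intro b
      rw [run_spec H hm1 hNk hN2 hNk3 E hE2 _ hl b]
      have hw' : 2 ^ (c * w.length) / (Nat.log 2 w.length + 1) = m := by
        rw [hw]
        rfl
      show _ ↔ C.Gives (2 ^ (c * w.length) / (Nat.log 2 w.length + 1))
        (fun y β => ∃ t, t ≤ tm c d n ∧ A.Answers w (y ++ α) t β) b
      rw [hw']
      constructor
      · refine Gives.mono fun y β hy h => ?_
        exact ((he n hn1 w (y ++ α) hw (hcapz y hy)).1 β).1 h
      · refine Gives.mono fun y β hy h => ?_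
        exact ((he n hn1 w (y ++ α) hw (hcapz y hy)).1 β).2 h
    constructor
    · rw [hsg, if_neg (by omega)]
      exact key false
    · rw [hsg, if_neg (by omega)]
      exact key true

end Pool.Agent.helper39.CTL
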