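import Pool.Agent.helper39.CTL.Run

/-!
# Every controller has codes
-/

set_option autoImplicit false

namespace Pool.Agent.helper39.CTL

open Pool.Agent.helper12.SP (pw dg)
open Pool.Agent.helper39.MESH.Cod (sum_digits_lt sum_digits)

theorem exists_code (Q : Type) [Finite Q] (x₀ : Q) (o : ℕ) : ∃ (s : ℕ) (c : Q → ℕ) (d : ℕ → Q),
    (∀ x, o ≤ c x ∧ c x < s) ∧ c x₀ = o ∧ ∀ x, d (c x) = x := by
  classical
  obtain ⟨n, ⟨ε⟩⟩ := Finite.exists_equiv_fin Q
  let d : ℕ → Q := fun i => if h : o + 1 ≤ i ∧ i - (o + 1) < n then ε.symm ⟨i - (o + 1), h.2⟩ else x₀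
  have hd0 : d o = x₀ := by
    simp only [d]
    rw [dif_neg (by omega)]
  have hd1 : ∀ x, d (o + 1 + (ε x : ℕ)) = x := by
    intro x
    have h1 := (ε x).2
    simp only [d]
    rw [dif_pos ⟨by omega, by omega⟩]
    have h2 : (⟨o + 1 + (ε x : ℕ) - (o + 1), by omega⟩ : Fin n) = ε x := Fin.ext (by simp)
    rw [h2, ε.symm_apply_apply]
  refine ⟨o + n + 1, fun x => if x = x₀ then o else o + 1 + (ε x : ℕ), d, ?_, by simp, ?_⟩
  · intro x
    have := (ε x).2
    simp only
    split_ifs <;> omega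
  · intro x
    show d (if x = x₀ then o else o + 1 + (ε x : ℕ)) = x
    by_cases h : x = x₀
    · rw [if_pos h, hd0, h]
    · rw [if_neg h, hd1]

theorem exists_codes (C : Ctl) : ∃ k T K : ℕ, 2 ≤ k ∧ ∀ N, K ≤ N →
    ∃ (cQ : C.Q → ℕ) (cΓ : C.Γ → ℕ), Codes C N k T cQ cΓ := by
  classical
  have := C.finQ
  have := C.finΓ
  obtain ⟨s1, cQ, dQ, hQ1, hQ2, hQ3⟩ := exists_code C.Q C.start 1
  obtain ⟨s2, cΓ, dΓ, hG1, hG2, hG3⟩ := exists_code C.Γ C.blank 0
  set k := s1 + s2 + 3 with hk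
  have hq : ∀ q, cQ q < k := fun q => by
    have := (hQ1 q).2
    omega
  have hg : ∀ γ, cΓ γ < k := fun γ => by
    have := (hG1 γ).2
    omega
  let r : ℕ → C.Q × C.Γ × Bool := fun u =>
    C.step (dQ (u / 2 / k)) (dΓ (u / 2 % k)) (decide (u % 2 = 1))
  let f : ℕ → ℕ := fun i =>
    if i < 6 * (k * k) then
      (if i % 3 = 0 then cQ (r (i / 3)).1 else if i % 3 = 1 then cΓ (r (i / 3)).2.1
        else (r (i / 3)).2.2.toNat)
    else if i < 6 * (k * k) + k then
      (if i = 6 * (k * k) then 0 else (C.out (dQ (i - 6 * (k * k)))).elim 0 fun b => 1 + b.toNat)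
    else (C.bit (dΓ (i - (6 * (k * k) + k)))).toNat
  have hf : ∀ i, f i < k := by
    intro i
    have hb : ∀ b : Bool, b.toNat ≤ 1 := Bool.toNat_le
    simp only [f]
    split_ifs
    · exact hq _
    · exact hg _
    · exact (hb _).trans_lt (by omega)
    · omega
    · cases C.out (dQ (i - 6 * (k * k))) with
      | none =>
        show 0 < k
        omega
      | some b =>
        show 1 + b.toNat < k
        have := hb b
        omega
    · exact (hb _).trans_lt (by omega)
  set D := 6 * (k * k) + k + k with hD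
  set T := ∑ j ∈ Finset.range D, f j * k ^ j with hT
  refine ⟨k, T, k ^ D, by omega, fun N hN => ⟨cQ, cΓ, ?_⟩⟩
  have hdig : ∀ i < D, dg N k T i = f i := by
    intro i hi
    unfold dg pw
    rw [min_eq_left ((Nat.pow_le_pow_right (by omega) hi.le).trans hN)]
    exact sum_digits (q := k) D f hf i hi
  have hu : ∀ q γ (b : Bool), (cQ q * k + cΓ γ) * 2 + b.toNat < 2 * (k * k) ∧
      r ((cQ q * k + cΓ γ) * 2 + b.toNat) = C.step q γ b := by
    intro q γ b
    have h1 := hq q
    have h2 := hg γ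
    have h3 : b.toNat ≤ 1 := Bool.toNat_le b
    have h4 : cQ q * k + cΓ γ < k * k := by nlinarith
    refine ⟨by omega, ?_⟩
    have h5 : ((cQ q * k + cΓ γ) * 2 + b.toNat) / 2 = cQ q * k + cΓ γ := by omega
    have h6 : (cQ q * k + cΓ γ) / k = cQ q := by
      rw [Nat.mul_comm, Nat.mul_add_div (by omega), Nat.div_eq_of_lt h2, Nat.add_zero]
    have h7 : (cQ q * k + cΓ γ) % k = cΓ γ := by
      rw [Nat.mul_comm, Nat.mul_add_mod, Nat.mod_eq_of_lt h2]
    have h8 : ((cQ q * k + cΓ γ) * 2 + b.toNat) % 2 = b.toNat := by omega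
    simp only [r]
    rw [h5, h6, h7, h8, hQ3, hG3]
    cases b <;> rfl
  refine ⟨fun q => (hQ1 q).1, hq, hg, hQ2, hG2, ?_, ?_, ?_, ?_, ?_, ?_⟩
  · intro q γ b
    obtain ⟨h1, h2⟩ := hu q γ b
    set u := (cQ q * k + cΓ γ) * 2 + b.toNat with hu'
    rw [hdig _ (by omega)]
    have h3 : 3 * u / 3 = u := by omega
    simp only [f]
    rw [if_pos (by omega), if_pos (by omega), h3, h2]
  · intro q γ b
    obtain ⟨h1, h2⟩ := hu q γ b
    set u := (cQ q * k + cΓ γ) * 2 + b.toNat with hu'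
    rw [hdig _ (by omega)]
    have h3 : (3 * u + 1) / 3 = u := by omega
    simp only [f]
    rw [if_pos (by omega), if_neg (by omega), if_pos (by omega), h3, h2]
  · intro q γ b
    obtain ⟨h1, h2⟩ := hu q γ b
    set u := (cQ q * k + cΓ γ) * 2 + b.toNat with hu'
    rw [hdig _ (by omega)]
    have h3 : (3 * u + 2) / 3 = u := by omega
    simp only [f]
    rw [if_pos (by omega), if_neg (by omega), if_neg (by omega), h3, h2]
  · intro q
    have h1 := hQ1 q
    have h2 := hq q
    rw [hdig _ (by omega)]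
    simp only [f]
    rw [if_neg (by omega), if_pos (by omega), if_neg (by omega), Nat.add_sub_cancel_left, hQ3]
  · rw [hdig _ (by omega)]
    simp only [f]
    rw [if_neg (by omega), if_pos (by omega)]
    simp
  · intro γ
    have h2 := hg γ
    rw [hdig _ (by omega)]
    simp only [f]
    rw [if_neg (by omega), if_neg (by omega), Nat.add_sub_cancel_left, hG3]

end Pool.Agent.helper39.CTL
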