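import Pool.Agent.helper39.CTL.Defs
import Pool.Agent.helper39.MESH.Gen

/-!
# Words and numbers
-/

set_option autoImplicit false

namespace Pool.Agent.helper39.CTL

open Pool.Agent.helper12.SP (num num_bounds num_inj num_surj)

/-- the word of length `m` with the bits of `y`, lowest bit first -/
def bl : ℕ → ℕ → List Bool
  | 0, _ => []
  | m + 1, y => decide (y % 2 = 1) :: bl m (y / 2)

theorem bl_length (m y : ℕ) : (bl m y).length = m := by
  induction m generalizing y with
  | zero => rfl
  | succ m ih => simp [bl, ih]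

theorem num_bl (m y : ℕ) (hy : y < 2 ^ m) (α : List Bool) :
    num (bl m y ++ α) = y + 2 ^ m * num α := by
  induction m generalizing y with
  | zero =>
    have : y = 0 := by simpa using hy
    simp [bl, this]
  | succ m ih =>
    have h1 : y / 2 < 2 ^ m := by
      rw [pow_succ] at hy
      omega
    simp only [bl, List.cons_append, num]
    rw [ih _ h1, pow_succ]
    have h2 : (decide (y % 2 = 1)).toNat = y % 2 := by
      rcases Nat.mod_two_eq_zero_or_one y with h | h <;> simp [h]
    rw [h2, Nat.mul_add, ← Nat.add_assoc, Nat.mod_add_div]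
    ring

theorem sum_bits_lt (m : ℕ) (f : ℕ → Bool) :
    ∑ j ∈ Finset.range m, (f j).toNat * 2 ^ j < 2 ^ m := by
  induction m with
  | zero => simp
  | succ m ih =>
    rw [Finset.sum_range_succ, pow_succ]
    have h1 : (f m).toNat ≤ 1 := Bool.toNat_le _
    have h2 : (f m).toNat * 2 ^ m ≤ 1 * 2 ^ m := Nat.mul_le_mul_right _ h1
    omega

theorem bl_sum (m : ℕ) : ∀ f : ℕ → Bool, bl m (∑ j ∈ Finset.range m, (f j).toNat * 2 ^ j) =
    (List.range m).map f := by
  induction m with
  | zero => intro f; rfl
  | succ m ih =>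
    intro f
    rw [Finset.sum_range_succ', List.range_succ_eq_map, List.map_cons, List.map_map]
    have h1 : ∑ j ∈ Finset.range m, (f (j + 1)).toNat * 2 ^ (j + 1) =
        2 * ∑ j ∈ Finset.range m, (f (j + 1)).toNat * 2 ^ j := by
      rw [Finset.mul_sum]
      refine Finset.sum_congr rfl fun j _ => ?_
      rw [pow_succ]
      ring
    rw [h1]
    have h2 : (f 0).toNat ≤ 1 := Bool.toNat_le _
    set S := ∑ j ∈ Finset.range m, (f (j + 1)).toNat * 2 ^ j with hS
    have h3 : (2 * S + (f 0).toNat * 2 ^ 0) % 2 = (f 0).toNat := by omega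
    have h4 : (2 * S + (f 0).toNat * 2 ^ 0) / 2 = S := by omega
    simp only [bl]
    rw [h3, h4, hS, ih fun j => f (j + 1)]
    congr 1
    cases f 0 <;> simp

end Pool.Agent.helper39.CTL
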